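import Pool.Agent.ODn.Defs

set_option autoImplicit false

namespace Pool.Agent.ODn

open Finset

-- BEGIN cnt
/-- Members of a residue class in `[-H, H]` (`Int.Ico_filter_modEq_card` for `Ico (-H) (H+1)`). -/
theorem cnt (H m : ℕ) (hm : 0 < m) (r : ℤ) :
    |(((Icc (-(H : ℤ)) H).filter fun x => x ≡ r [ZMOD m]).card : ℝ) - (2 * H + 1) / m| ≤ 1 := by
  have h0 : Icc (-(H : ℤ)) H = Ico (-(H : ℤ)) ((H : ℤ) + 1) := by
    ext x
    rw [mem_Icc, mem_Ico]
    omega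
  have hmZ : (0 : ℤ) < (m : ℤ) := by exact_mod_cast hm
  have hmQ : (0 : ℚ) < ((m : ℤ) : ℚ) := by exact_mod_cast hm
  have h1 := Int.Ico_filter_modEq_card (-(H : ℤ)) ((H : ℤ) + 1) hmZ r
  have hle : ((-(H : ℤ) : ℤ) - r : ℚ) / ((m : ℤ) : ℚ) ≤ ((((H : ℤ) + 1 : ℤ) : ℚ) - r) / ((m : ℤ) : ℚ) := by
    apply div_le_div_of_nonneg_right _ hmQ.le
    push_cast
    have : (0 : ℚ) ≤ (H : ℚ) := Nat.cast_nonneg H
    linarith
  have h2 : ⌈((-(H : ℤ) : ℤ) - r : ℚ) / ((m : ℤ) : ℚ)⌉ ≤ ⌈((((H : ℤ) + 1 : ℤ) : ℚ) - r) / ((m : ℤ) : ℚ)⌉ :=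
    Int.ceil_le_ceil hle
  rw [max_eq_left (sub_nonneg.2 h2)] at h1
  have h3 : (((((Icc (-(H : ℤ)) H).filter fun x => x ≡ r [ZMOD m]).card : ℤ) : ℚ)) - (2 * H + 1) / m ≤ 1 := by
    rw [h0, h1]
    have e1 := Int.ceil_lt_add_one (((((H : ℤ) + 1 : ℤ) : ℚ) - r) / ((m : ℤ) : ℚ))
    have e2 := Int.le_ceil (((-(H : ℤ) : ℤ) - r : ℚ) / ((m : ℤ) : ℚ))
    have e3 : ((((H : ℤ) + 1 : ℤ) : ℚ) - r) / ((m : ℤ) : ℚ) - ((-(H : ℤ) : ℤ) - r : ℚ) / ((m : ℤ) : ℚ) =
        (2 * H + 1) / m := by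
      push_cast
      ring
    rw [Int.cast_sub]
    linarith
  have h4 : -1 ≤ (((((Icc (-(H : ℤ)) H).filter fun x => x ≡ r [ZMOD m]).card : ℤ) : ℚ)) - (2 * H + 1) / m := by
    rw [h0, h1]
    have e1 := Int.ceil_lt_add_one (((-(H : ℤ) : ℤ) - r : ℚ) / ((m : ℤ) : ℚ))
    have e2 := Int.le_ceil (((((H : ℤ) + 1 : ℤ) : ℚ) - r) / ((m : ℤ) : ℚ))
    have e3 : ((((H : ℤ) + 1 : ℤ) : ℚ) - r) / ((m : ℤ) : ℚ) - ((-(H : ℤ) : ℤ) - r : ℚ) / ((m : ℤ) : ℚ) =
        (2 * H + 1) / m := by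
      push_cast
      ring
    rw [Int.cast_sub]
    linarith
  have h5 := (Rat.cast_le (K := ℝ)).2 h3
  have h6 := (Rat.cast_le (K := ℝ)).2 h4
  push_cast at h5 h6
  rw [abs_le]
  exact ⟨h6, h5⟩
-- END cnt

-- BEGIN prod_diff
/-- Products of close numbers are close (induction on `k`). -/
theorem prod_diff {k : ℕ} (a b : Fin (k + 1) → ℝ) (K : ℝ) (hK : 1 ≤ K) (ha : ∀ i, 0 ≤ a i ∧ a i ≤ K)
    (hb : ∀ i, 0 ≤ b i ∧ b i ≤ K) (hab : ∀ i, |a i - b i| ≤ 1) :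
    |∏ i, a i - ∏ i, b i| ≤ (k + 1) * K ^ k := by
  induction k with
  | zero =>
    rw [Fin.prod_univ_one, Fin.prod_univ_one]
    simpa using hab 0
  | succ k ih =>
    have h1 := ih (fun i => a i.succ) (fun i => b i.succ) (fun i => ha i.succ)
      (fun i => hb i.succ) (fun i => hab i.succ)
    rw [Fin.prod_univ_succ a, Fin.prod_univ_succ b]
    obtain ⟨A, hA⟩ : ∃ A, A = ∏ i : Fin (k + 1), a i.succ := ⟨_, rfl⟩
    obtain ⟨B, hB⟩ : ∃ B, B = ∏ i : Fin (k + 1), b i.succ := ⟨_, rfl⟩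
    rw [← hA, ← hB] at h1 ⊢
    have hA0 : 0 ≤ A := by
      rw [hA]
      exact Finset.prod_nonneg fun i _ => (ha i.succ).1
    have hA1 : A ≤ K ^ (k + 1) := by
      rw [hA]
      refine (Finset.prod_le_prod (fun i _ => (ha i.succ).1) (fun i _ => (ha i.succ).2)).trans ?_
      simp
    have h2 : a 0 * A - b 0 * B = (a 0 - b 0) * A + b 0 * (A - B) := by ring
    rw [h2]
    have h3 : |(a 0 - b 0) * A| ≤ 1 * K ^ (k + 1) := by
      rw [abs_mul, abs_of_nonneg hA0]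
      exact mul_le_mul (hab 0) hA1 hA0 zero_le_one
    have h4 : |b 0 * (A - B)| ≤ K * ((k + 1) * K ^ k) := by
      rw [abs_mul, abs_of_nonneg (hb 0).1]
      exact mul_le_mul (hb 0).2 h1 (abs_nonneg _) (by linarith)
    refine (abs_add_le _ _).trans ((add_le_add h3 h4).trans (le_of_eq ?_))
    push_cast
    ring
-- END prod_diff

-- BEGIN box_sum
private theorem box_sum_class {d m H : ℕ} (hm : 0 < m) (hmH : m ≤ 2 * H + 1)
    (r : Fin (d + 1) → ℤ) :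
    |(((box (d + 1) H).filter fun c => ∀ i, c i ≡ r i [ZMOD m]).card : ℝ)
        - ((2 * H + 1 : ℝ) / m) ^ (d + 1)|
      ≤ (d + 1) * (2 * ((2 * H + 1 : ℝ) / m)) ^ d := by
  have hm0 : (0 : ℝ) < m := by exact_mod_cast hm
  have hq1 : 1 ≤ (2 * H + 1 : ℝ) / m := by
    rw [le_div_iff₀ hm0, one_mul]
    exact_mod_cast hmH
  have h1 : ((box (d + 1) H).filter fun c => ∀ i, c i ≡ r i [ZMOD m])
      = Fintype.piFinset fun i => (Icc (-(H : ℤ)) H).filter fun x => x ≡ r i [ZMOD m] := by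
    ext c
    unfold box
    simp only [mem_filter, Fintype.mem_piFinset]
    constructor
    · rintro ⟨h2, h3⟩ i
      exact ⟨h2 i, h3 i⟩
    · intro h2
      exact ⟨fun i => (h2 i).1, fun i => (h2 i).2⟩
  have h2 : ((2 * H + 1 : ℝ) / m) ^ (d + 1) = ∏ _i : Fin (d + 1), ((2 * H + 1 : ℝ) / m) := by
    rw [Finset.prod_const, Finset.card_univ, Fintype.card_fin]
  rw [h1, Fintype.card_piFinset, Nat.cast_prod, h2]
  refine prod_diff _ _ _ (by linarith) (fun i => ⟨by positivity, ?_⟩)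
    (fun i => ⟨by positivity, by linarith⟩) (fun i => cnt H m hm (r i))
  have h3 := (abs_le.1 (cnt H m hm (r i))).2
  linarith

/-- Sums of `m`-periodic functions over the box. Proof: group the box by residue vectors
`r ∈ rs (d+1) m`; the class of `r` has `∏ i, #{x ∈ [-H,H] : x ≡ r i}` members, which differs from
`((2H+1)/m)^(d+1)` by at most `(d+1) (2(2H+1)/m)^d` (`cnt`, `prod_diff` with `K = 2(2H+1)/m`). -/
theorem box_sum {d m H : ℕ} (hm : 0 < m) (hmH : m ≤ 2 * H + 1) (φ : (Fin (d + 1) → ℤ) → ℝ)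
    (hφ : Per m φ) (B : ℝ) (hB : ∀ c, |φ c| ≤ B) :
    |∑ c ∈ box (d + 1) H, φ c - ((2 * H + 1 : ℝ) / m) ^ (d + 1) * sm m φ|
      ≤ B * ((d + 1) * 2 ^ d * m * (2 * H + 1) ^ d) := by
  classical
  have hm0 : (0 : ℝ) < m := by exact_mod_cast hm
  have hmz : (0 : ℤ) < m := by exact_mod_cast hm
  have hB0 : 0 ≤ B := (abs_nonneg _).trans (hB fun _ => 0)
  have hmap : ∀ c ∈ box (d + 1) H, (fun i => c i % (m : ℤ)) ∈ rs (d + 1) m := by
    intro c _
    unfold rs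
    rw [Fintype.mem_piFinset]
    intro i
    exact mem_Ico.2 ⟨Int.emod_nonneg _ hmz.ne', Int.emod_lt_of_pos _ hmz⟩
  have h1 : ∑ c ∈ box (d + 1) H, φ c
      = ∑ r ∈ rs (d + 1) m,
        (((box (d + 1) H).filter fun c => ∀ i, c i ≡ r i [ZMOD m]).card : ℝ) * φ r := by
    rw [← Finset.sum_fiberwise_of_maps_to hmap]
    refine Finset.sum_congr rfl fun r hr => ?_
    unfold rs at hr
    rw [Fintype.mem_piFinset] at hr
    have h2 : ((box (d + 1) H).filter fun c => (fun i => c i % (m : ℤ)) = r)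
        = (box (d + 1) H).filter fun c => ∀ i, c i ≡ r i [ZMOD m] := by
      refine Finset.filter_congr fun c _ => ?_
      constructor
      · intro h3 i
        have h4 := congrFun h3 i
        have h5 := mem_Ico.1 (hr i)
        show c i % m = r i % m
        rw [Int.emod_eq_of_lt h5.1 h5.2]
        exact h4
      · intro h3
        funext i
        have h5 := mem_Ico.1 (hr i)
        have h4 : c i % m = r i % m := h3 i
        rw [Int.emod_eq_of_lt h5.1 h5.2] at h4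
        exact h4
    rw [h2, ← nsmul_eq_mul, ← Finset.sum_const]
    refine Finset.sum_congr rfl fun c hc => ?_
    exact hφ c r (mem_filter.1 hc).2
  have h3 : ((rs (d + 1) m).card : ℝ) = (m : ℝ) ^ (d + 1) := by
    unfold rs
    rw [Fintype.card_piFinset, Finset.prod_const, Finset.card_univ, Fintype.card_fin, Int.card_Ico,
      sub_zero, Int.toNat_natCast, Nat.cast_pow]
  rw [h1]
  unfold sm
  rw [Finset.mul_sum, ← Finset.sum_sub_distrib]
  refine (Finset.abs_sum_le_sum_abs _ _).trans ?_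
  have h4 : ∀ r ∈ rs (d + 1) m,
      |(((box (d + 1) H).filter fun c => ∀ i, c i ≡ r i [ZMOD m]).card : ℝ) * φ r
        - ((2 * H + 1 : ℝ) / m) ^ (d + 1) * φ r|
      ≤ ((d + 1) * (2 * ((2 * H + 1 : ℝ) / m)) ^ d) * B := by
    intro r _
    rw [← sub_mul, abs_mul]
    exact mul_le_mul (box_sum_class hm hmH r) (hB r) (abs_nonneg _) (by positivity)
  refine (Finset.sum_le_sum h4).trans ?_
  rw [Finset.sum_const, nsmul_eq_mul, h3]
  refine le_of_eq ?_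
  rw [mul_pow, div_pow, pow_succ (m : ℝ) d]
  field_simp
-- END box_sum

end Pool.Agent.ODn
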