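import Pool.Agent.ODn.Defs

set_option autoImplicit false

namespace Pool.Agent.ODn

open Finset

-- BEGIN crt
private theorem crt_card (k m : ℕ) : (rs k m).card = m ^ k := by
  unfold rs
  rw [Fintype.card_piFinset_const, Int.card_Ico, sub_zero, Int.toNat_natCast]

/-- Chinese remainder theorem for sums over residue vectors. Proof: `c ↦ (c mod m, c mod m')` is a
bijection of `rs k (m*m')` onto `rs k m ×ˢ rs k m'` (injective by coprimality, equal cardinality). -/
theorem crt {k m m' : ℕ} (hm : 0 < m) (hm' : 0 < m') (h : m.Coprime m')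
    (φ ψ : (Fin k → ℤ) → ℝ) (hφ : Per m φ) (hψ : Per m' ψ) :
    sm (m * m') (fun c => φ c * ψ c) = sm m φ * sm m' ψ := by
  have hmz : (0 : ℤ) < m := by exact_mod_cast hm
  have hmz' : (0 : ℤ) < m' := by exact_mod_cast hm'
  set f : (Fin k → ℤ) → (Fin k → ℤ) × (Fin k → ℤ) := fun c => (fun i => c i % m, fun i => c i % m') with hf
  have h1 : ∀ c ∈ rs k (m * m'), f c ∈ rs k m ×ˢ rs k m' := by
    intro c _
    refine Finset.mem_product.2 ⟨Fintype.mem_piFinset.2 fun i => ?_, Fintype.mem_piFinset.2 fun i => ?_⟩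
    · exact Finset.mem_Ico.2 ⟨Int.emod_nonneg _ hmz.ne', Int.emod_lt_of_pos _ hmz⟩
    · exact Finset.mem_Ico.2 ⟨Int.emod_nonneg _ hmz'.ne', Int.emod_lt_of_pos _ hmz'⟩
  have h2 : Set.InjOn f (rs k (m * m')) := by
    intro c hc c' hc' hcc
    have hc := Fintype.mem_piFinset.1 hc
    have hc' := Fintype.mem_piFinset.1 hc'
    have e1 : (fun i => c i % (m : ℤ)) = fun i => c' i % (m : ℤ) := congrArg Prod.fst hcc
    have e2 : (fun i => c i % (m' : ℤ)) = fun i => c' i % (m' : ℤ) := congrArg Prod.snd hcc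
    funext i
    have a1 : c i ≡ c' i [ZMOD m] := congrFun e1 i
    have a2 : c i ≡ c' i [ZMOD m'] := congrFun e2 i
    have a3 : c i ≡ c' i [ZMOD (m * m')] := (Int.modEq_and_modEq_iff_modEq_mul (by simpa using h)).1 ⟨a1, a2⟩
    have b1 := Finset.mem_Ico.1 (hc i)
    have b2 := Finset.mem_Ico.1 (hc' i)
    push_cast at b1 b2
    have a4 : c i % (m * m') = c' i % (m * m') := a3
    rwa [Int.emod_eq_of_lt b1.1 b1.2, Int.emod_eq_of_lt b2.1 b2.2] at a4
  have h3 : Set.SurjOn f (rs k (m * m')) (rs k m ×ˢ rs k m' : Finset _) := by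
    refine Finset.surjOn_of_injOn_of_card_le f (fun c hc => h1 c hc) h2 ?_
    rw [Finset.card_product, crt_card, crt_card, crt_card, mul_pow]
  unfold sm
  rw [Finset.sum_mul_sum, ← Finset.sum_product']
  refine Finset.sum_nbij f h1 h2 h3 fun c _ => ?_
  have c1 : φ c = φ (f c).1 := hφ _ _ fun i => (Int.mod_modEq _ _).symm
  have c2 : ψ c = ψ (f c).2 := hψ _ _ fun i => (Int.mod_modEq _ _).symm
  rw [c1, c2]
-- END crt

-- BEGIN crt_prod
/-- The same for a finite set of primes (induction with `crt`; `sm 1 φ = φ 0`). -/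
theorem crt_prod {k : ℕ} (S : Finset ℕ) (hS : ∀ p ∈ S, p.Prime) (φ : ℕ → (Fin k → ℤ) → ℝ)
    (hφ : ∀ p ∈ S, Per p (φ p)) :
    sm (∏ p ∈ S, p) (fun c => ∏ p ∈ S, φ p c) = ∏ p ∈ S, sm p (φ p) := by
  induction S using Finset.induction_on with
  | empty =>
    rw [Finset.prod_empty, Finset.prod_empty]
    unfold sm rs
    have h1 : (Fintype.piFinset fun _ : Fin k => Ico (0 : ℤ) ((1 : ℕ) : ℤ)) = {fun _ => 0} := by
      ext c
      rw [Fintype.mem_piFinset, Finset.mem_singleton]
      constructor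
      · intro h
        funext i
        have h2 := Finset.mem_Ico.1 (h i)
        push_cast at h2
        omega
      · rintro rfl i
        show (0 : ℤ) ∈ Ico (0 : ℤ) ((1 : ℕ) : ℤ)
        rw [Finset.mem_Ico]
        exact ⟨le_rfl, by norm_num⟩
    rw [h1, Finset.sum_singleton, Finset.prod_empty]
  | insert p S hp ih =>
    have hS' : ∀ q ∈ S, q.Prime := fun q hq => hS q (Finset.mem_insert_of_mem hq)
    have hφ' : ∀ q ∈ S, Per q (φ q) := fun q hq => hφ q (Finset.mem_insert_of_mem hq)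
    have hpp : p.Prime := hS p (Finset.mem_insert_self p S)
    have hcop : p.Coprime (∏ q ∈ S, q) := Nat.Coprime.prod_right fun q hq =>
      (Nat.coprime_primes hpp (hS' q hq)).2 fun h => hp (h ▸ hq)
    have hper : Per (∏ q ∈ S, q) (fun c => ∏ q ∈ S, φ q c) := fun c c' h =>
      Finset.prod_congr rfl fun q hq => hφ' q hq c c' fun i =>
        (h i).of_dvd (Int.natCast_dvd_natCast.2 (Finset.dvd_prod_of_mem (fun q => q) hq))
    rw [Finset.prod_insert hp, Finset.prod_insert hp, ← ih hS' hφ',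
      ← crt hpp.pos (Finset.prod_pos fun q hq => (hS' q hq).pos) hcop (φ p) _
        (hφ p (Finset.mem_insert_self p S)) hper]
    congr 1
    funext c
    exact Finset.prod_insert hp
-- END crt_prod

-- BEGIN card_rs
/-- Residue vectors as elements of `Fin (d+1) → ZMod p`. -/
theorem card_rs {d p : ℕ} [Fact p.Prime] (α : ℤ) (n : ℕ) :
    ((rs (d + 1) p).filter fun c => (p : ℤ) ∣ it c α n).card
      = (univ.filter fun c : Fin (d + 1) → ZMod p => it c (α : ZMod p) n = 0).card := by
  have hp : 0 < p := (Fact.out : p.Prime).pos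
  haveI : NeZero p := ⟨hp.ne'⟩
  have key : ∀ c : Fin (d + 1) → ℤ, ((p : ℤ) ∣ it c α n ↔
      it (fun i => (c i : ZMod p)) (α : ZMod p) n = 0) := by
    intro c
    have h1 := map_it (Int.castRingHom (ZMod p)) c α n
    simp only [eq_intCast] at h1
    rw [← h1, ZMod.intCast_zmod_eq_zero_iff_dvd]
  have hinv : ∀ z : Fin (d + 1) → ZMod p,
      (fun i => ((((z i).val : ℕ) : ℤ) : ZMod p)) = z := by
    intro z
    funext i
    rw [Int.cast_natCast, ZMod.natCast_zmod_val]
  refine Finset.card_nbij' (fun c i => (c i : ZMod p)) (fun z i => (((z i).val : ℕ) : ℤ)) ?_ ?_ ?_ ?_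
  · intro c hc
    simp only [coe_filter, Set.mem_setOf_eq] at hc
    simp only [coe_filter, Set.mem_setOf_eq, mem_univ, true_and]
    exact (key c).1 hc.2
  · intro z hz
    simp only [coe_filter, Set.mem_setOf_eq, mem_univ, true_and] at hz
    simp only [coe_filter, Set.mem_setOf_eq]
    refine ⟨?_, ?_⟩
    · unfold rs
      rw [Fintype.mem_piFinset]
      intro i
      rw [mem_Ico]
      exact ⟨by positivity, by exact_mod_cast ZMod.val_lt (z i)⟩
    · rw [key, hinv]
      exact hz
  · intro c hc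
    simp only [coe_filter, Set.mem_setOf_eq] at hc
    have h1 := hc.1
    unfold rs at h1
    rw [Fintype.mem_piFinset] at h1
    funext i
    have h2 := mem_Ico.1 (h1 i)
    show (((c i : ZMod p).val : ℕ) : ℤ) = c i
    rw [ZMod.val_intCast, Int.emod_eq_of_lt h2.1 h2.2]
  · intro z _
    exact hinv z
-- END card_rs

end Pool.Agent.ODn
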