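import Mathlib

set_option autoImplicit false

/-!
# Primes in orbits on average (MP_29b621_nt, OrbitDensity): definitions

`ev c` is the polynomial map with coefficient vector `c`, `it c a n` its n-th iterate at `a`.
-/

namespace Pool.Agent.ODn

open Finset

/-- Value at `x` of the polynomial with coefficient vector `c` (degree at most `d`). -/
def ev {R : Type*} [CommRing R] {d : ℕ} (c : Fin (d + 1) → R) (x : R) : R :=
  ∑ i, c i * x ^ (i : ℕ)

/-- The `n`-th iterate of that polynomial at `a`. -/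
def it {R : Type*} [CommRing R] {d : ℕ} (c : Fin (d + 1) → R) (a : R) (n : ℕ) : R :=
  (ev c)^[n] a

/-- Integer vectors of length `k` with entries in `[-H, H]`. -/
noncomputable def box (k H : ℕ) : Finset (Fin k → ℤ) :=
  Fintype.piFinset fun _ => Icc (-(H : ℤ)) H

/-- Integer vectors of length `k` with entries in `[0, m)`: the residue vectors mod `m`. -/
noncomputable def rs (k m : ℕ) : Finset (Fin k → ℤ) :=
  Fintype.piFinset fun _ => Ico (0 : ℤ) m

/-- `φ` depends only on the residue vector mod `m`. -/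
def Per {k : ℕ} (m : ℕ) (φ : (Fin k → ℤ) → ℝ) : Prop :=
  ∀ c c' : Fin k → ℤ, (∀ i, c i ≡ c' i [ZMOD m]) → φ c = φ c'

/-- Sum over the residue vectors mod `m`. -/
noncomputable def sm {k : ℕ} (m : ℕ) (φ : (Fin k → ℤ) → ℝ) : ℝ := ∑ c ∈ rs k m, φ c

/-- Squarefree numbers in `[1, Q]`. -/
def sf (Q : ℕ) : Finset ℕ := (Icc 1 Q).filter Squarefree

/-- Density of `p ∣ f^n(α)` among the residue vectors mod `p`. -/
noncomputable def gp (d n : ℕ) (α : ℤ) (p : ℕ) : ℝ :=
  (((rs (d + 1) p).filter fun c => (p : ℤ) ∣ it c α n).card : ℝ) / (p : ℝ) ^ (d + 1)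

/-- `g / (1 - g)`. -/
noncomputable def hp (d n : ℕ) (α : ℤ) (p : ℕ) : ℝ := gp d n α p / (1 - gp d n α p)

/-- The local sieve function. -/
noncomputable def om (d n : ℕ) (α : ℤ) (p : ℕ) (c : Fin (d + 1) → ℤ) : ℝ :=
  if (p : ℤ) ∣ it c α n then -1 else hp d n α p

/-- Products of the local sieve functions. -/
noncomputable def OM (d n : ℕ) (α : ℤ) (m : ℕ) (c : Fin (d + 1) → ℤ) : ℝ :=
  ∏ p ∈ m.primeFactors, om d n α p c

/-- Products of the `hp`. -/
noncomputable def HM (d n : ℕ) (α : ℤ) (m : ℕ) : ℝ := ∏ p ∈ m.primeFactors, hp d n α p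

/-- Ring homomorphisms commute with evaluation and iteration. -/
theorem map_ev {R S : Type*} [CommRing R] [CommRing S] (f : R →+* S) {d : ℕ}
    (c : Fin (d + 1) → R) (x : R) : f (ev c x) = ev (fun i => f (c i)) (f x) := by
  simp [ev, map_sum, map_mul, map_pow]

theorem map_it {R S : Type*} [CommRing R] [CommRing S] (f : R →+* S) {d : ℕ}
    (c : Fin (d + 1) → R) (a : R) (n : ℕ) : f (it c a n) = it (fun i => f (c i)) (f a) n := by
  unfold it
  induction n with
  | zero => rfl
  | succ n ih => rw [Function.iterate_succ_apply', Function.iterate_succ_apply', map_ev, ih]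

theorem it_succ {R : Type*} [CommRing R] {d : ℕ} (c : Fin (d + 1) → R) (a : R) (n : ℕ) :
    it c a (n + 1) = ev c (it c a n) := by
  unfold it; rw [Function.iterate_succ_apply']

/-- The iterates depend only on the coefficients modulo `m`. -/
theorem it_modEq {d : ℕ} (m : ℕ) (c c' : Fin (d + 1) → ℤ) (h : ∀ i, c i ≡ c' i [ZMOD m])
    (α : ℤ) (n : ℕ) : it c α n ≡ it c' α n [ZMOD m] := by
  have h1 := map_it (Int.castRingHom (ZMod m)) c α n
  have h2 := map_it (Int.castRingHom (ZMod m)) c' α n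
  rw [← ZMod.intCast_eq_intCast_iff]
  have h3 : (fun i => (Int.castRingHom (ZMod m)) (c i)) = fun i => (Int.castRingHom (ZMod m)) (c' i) := by
    funext i
    simpa using (ZMod.intCast_eq_intCast_iff _ _ _).2 (h i)
  rw [h3, ← h2] at h1
  simpa using h1

end Pool.Agent.ODn
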