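import Pool.Agent.ODn.Siv

set_option autoImplicit false

namespace Pool.Agent.ODn

open Finset Filter

/-- `α` is a wandering point: its iterates are pairwise distinct. -/
def Wand {d : ℕ} (c : Fin (d + 1) → ℤ) (α : ℤ) : Prop :=
  ∀ m n : ℕ, it c α m = it c α n → m = n

open Classical in
/-- Upper density of a set of natural numbers. -/
noncomputable def ud (P : ℕ → Prop) : ℝ :=
  limsup (fun N : ℕ => (((range N).filter P).card : ℝ) / N) atTop

-- BEGIN evper
private theorem evper_iter {X : Type*} (g : X → X) (x : X) (i p : ℕ)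
    (h : g^[i + p] x = g^[i] x) (n : ℕ) (hn : i ≤ n) (k : ℕ) : g^[n + k * p] x = g^[n] x := by
  have h1 : ∀ m, i ≤ m → g^[m + p] x = g^[m] x := by
    intro m hm
    obtain ⟨r, rfl⟩ := Nat.exists_eq_add_of_le hm
    have e1 : i + r + p = r + (i + p) := by ring
    have e2 : i + r = r + i := by ring
    rw [e1, Function.iterate_add_apply, h, ← Function.iterate_add_apply, e2]
  induction k with
  | zero => simp
  | succ k ih =>
    have e : n + (k + 1) * p = (n + k * p) + p := by ring
    rw [e, h1 _ (le_trans hn (Nat.le_add_right _ _)), ih]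

private theorem evper_aux {X : Type*} [Fintype X] (g : X → X) (x : X) (n : ℕ)
    (hn : Fintype.card X ≤ n) :
    g^[n + (Fintype.card X).factorial] x = g^[n] x := by
  obtain ⟨i, j, hij, h⟩ := Fintype.exists_ne_map_eq_of_card_lt
    (fun k : Fin (Fintype.card X + 1) => g^[(k : ℕ)] x) (by simp)
  have key : ∀ a b : ℕ, a < b → b ≤ Fintype.card X → g^[a] x = g^[b] x →
      g^[n + (Fintype.card X).factorial] x = g^[n] x := by
    intro a b hab hb hh
    obtain ⟨q, hq⟩ : b - a ∣ (Fintype.card X).factorial :=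
      Nat.dvd_factorial (by omega) (by omega)
    rw [hq, mul_comm]
    refine evper_iter g x a (b - a) ?_ n (by omega) q
    have e : a + (b - a) = b := by omega
    rw [e, hh]
  have hi := i.2
  have hj := j.2
  have hne : (i : ℕ) ≠ (j : ℕ) := fun hc => hij (Fin.ext hc)
  rcases Nat.lt_or_gt_of_ne hne with hlt | hgt
  · exact key i j hlt (by omega) h
  · exact key j i hgt (by omega) h.symm

/-- Modulo `M` the orbit is periodic with period `M!` from the index `M` on (pigeonhole). -/
theorem evper {d : ℕ} (c : Fin (d + 1) → ℤ) (α : ℤ) (M : ℕ) (hM : 0 < M) (n : ℕ) (hn : M ≤ n) :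
    it c α (n + M.factorial) ≡ it c α n [ZMOD M] := by
  have : NeZero M := ⟨hM.ne'⟩
  have hs : ∀ k, ((it c α k : ℤ) : ZMod M) =
      it (fun i => (Int.castRingHom (ZMod M)) (c i)) ((Int.castRingHom (ZMod M)) α) k :=
    fun k => map_it (Int.castRingHom (ZMod M)) c α k
  rw [← ZMod.intCast_eq_intCast_iff, hs, hs]
  unfold it
  have h := evper_aux (ev fun i => (Int.castRingHom (ZMod M)) (c i))
    ((Int.castRingHom (ZMod M)) α) n (by rw [ZMod.card]; exact hn)
  rw [ZMod.card] at h
  exact h
-- END evper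

open Classical in
-- BEGIN ud_le
private theorem ud_le_mul (Q : ℕ → Prop) (L : ℕ) (hper : ∀ n, Q (n + L) ↔ Q n) (q : ℕ) :
    (∀ n, Q (q * L + n) ↔ Q n) ∧
    ((range (q * L)).filter Q).card = q * ((range L).filter Q).card := by
  induction q with
  | zero => simp
  | succ q ih =>
    obtain ⟨h1, h2⟩ := ih
    refine ⟨fun n => ?_, ?_⟩
    · have e : (q + 1) * L + n = (q * L + n) + L := by ring
      rw [e, hper, h1]
    · have e : (q + 1) * L = q * L + L := by ring
      rw [← Nat.count_eq_card_filter_range, ← Nat.count_eq_card_filter_range] at h2 ⊢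
      rw [e, Nat.count_add, h2]
      have h3 : Nat.count (fun k => Q (q * L + k)) L = Nat.count Q L := by
        rw [Nat.count_eq_card_filter_range, Nat.count_eq_card_filter_range]
        congr 1
        exact Finset.filter_congr fun n _ => h1 n
      rw [h3]; ring

open Classical in
private theorem ud_le_count (P R : ℕ → Prop) (M L : ℕ) (hL : 0 < L)
    (hfin : {n | P n ∧ ¬ R n}.Finite) (hper : ∀ n, M ≤ n → (R (n + L) ↔ R n)) (N : ℕ) :
    ((range N).filter P).card ≤ hfin.toFinset.card + M +
      (N / L + 1) * ((Ico M (M + L)).filter R).card := by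
  have hper' : ∀ n, (fun m => R (m + M)) (n + L) ↔ (fun m => R (m + M)) n := by
    intro n
    have e : n + L + M = (n + M) + L := by ring
    show R (n + L + M) ↔ R (n + M)
    rw [e]
    exact hper _ (Nat.le_add_left _ _)
  obtain ⟨-, h2⟩ := ud_le_mul (fun m => R (m + M)) L hper' (N / L + 1)
  have h3 : ((range L).filter fun m => R (m + M)).card = ((Ico M (M + L)).filter R).card := by
    refine Finset.card_bij (fun m _ => m + M) ?_ ?_ ?_
    · intro m hm
      rw [mem_filter, mem_range] at hm
      rw [mem_filter, mem_Ico]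
      exact ⟨⟨by omega, by omega⟩, hm.2⟩
    · intro a _ b _ hab
      omega
    · intro m hm
      rw [mem_filter, mem_Ico] at hm
      refine ⟨m - M, ?_, by omega⟩
      rw [mem_filter, mem_range]
      refine ⟨by omega, ?_⟩
      have e : m - M + M = m := by omega
      rw [e]; exact hm.2
  rw [h3] at h2
  rw [← h2]
  have h4 : (range N).filter P ⊆ (hfin.toFinset ∪ range M) ∪
      ((range ((N / L + 1) * L)).filter fun m => R (m + M)).image (fun m => m + M) := by
    intro n hn
    rw [mem_filter, mem_range] at hn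
    rw [mem_union, mem_union]
    by_cases hR : R n
    · by_cases hM : n < M
      · exact Or.inl (Or.inr (mem_range.2 hM))
      · right
        rw [mem_image]
        refine ⟨n - M, ?_, by omega⟩
        rw [mem_filter, mem_range]
        have e : n - M + M = n := by omega
        refine ⟨?_, by rw [e]; exact hR⟩
        have h5 : N < (N / L + 1) * L := by
          have := Nat.lt_div_mul_add (a := N) hL
          calc N < N / L * L + L := this
            _ = (N / L + 1) * L := by ring
        omega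
    · exact Or.inl (Or.inl ((Set.Finite.mem_toFinset hfin).2 ⟨hn.2, hR⟩))
  refine (Finset.card_le_card h4).trans ((Finset.card_union_le _ _).trans ?_)
  refine Nat.add_le_add ((Finset.card_union_le _ _).trans ?_) Finset.card_image_le
  rw [card_range]

open Classical in
/-- If `P` is contained in `R` up to finitely many indices and `R` is `L`-periodic from `M` on, then
the upper density of `P` is at most the density of `R` in a period. -/
theorem ud_le (P R : ℕ → Prop) (M L : ℕ) (hL : 0 < L)
    (hfin : {n | P n ∧ ¬ R n}.Finite) (hper : ∀ n, M ≤ n → (R (n + L) ↔ R n)) :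
    ud P ≤ (((Ico M (M + L)).filter R).card : ℝ) / L := by
  set κ : ℝ := (((Ico M (M + L)).filter R).card : ℝ) with hκ
  have hκ0 : 0 ≤ κ := Nat.cast_nonneg _
  set C : ℝ := (hfin.toFinset.card : ℝ) + M + κ with hC
  have hL0 : (0 : ℝ) < L := by exact_mod_cast hL
  have hb : ∀ N : ℕ, 0 < N → (((range N).filter P).card : ℝ) / N ≤ C / N + κ / L := by
    intro N hN
    have hN0 : (0 : ℝ) < N := by exact_mod_cast hN
    have h1 : (((range N).filter P).card : ℝ) ≤
        (hfin.toFinset.card : ℝ) + M + ((N / L : ℕ) + 1) * κ := by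
      have := ud_le_count P R M L hL hfin hper N
      rw [hκ]
      exact_mod_cast this
    have h2 : ((N / L : ℕ) : ℝ) ≤ (N : ℝ) / L := Nat.cast_div_le
    have h3 : ((N / L : ℕ) : ℝ) * κ ≤ (N : ℝ) / L * κ := mul_le_mul_of_nonneg_right h2 hκ0
    rw [div_le_iff₀ hN0]
    have h4 : (C / N + κ / L) * N = C + (N : ℝ) / L * κ := by field_simp
    rw [h4, hC]
    linarith
  have ht : Tendsto (fun N : ℕ => C / (N : ℝ) + κ / L) atTop (nhds (κ / L)) := by
    have h1 : Tendsto (fun N : ℕ => C / (N : ℝ)) atTop (nhds 0) :=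
      tendsto_const_div_atTop_nhds_zero_nat C
    simpa using h1.add_const (κ / L)
  unfold ud
  rw [← ht.limsup_eq]
  refine Filter.limsup_le_limsup ?_ ?_ ht.isBoundedUnder_le
  · filter_upwards [eventually_gt_atTop 0] with N hN
    exact hb N hN
  · refine Filter.isCoboundedUnder_le_of_le atTop (x := 0) ?_
    intro N
    positivity
-- END ud_le

-- BEGIN fin_wand
/-- A wandering orbit meets the finitely many primes `±p`, `p ≤ B`, finitely often. -/
theorem fin_wand {d : ℕ} (c : Fin (d + 1) → ℤ) (α : ℤ) (h : Wand c α) (B : ℕ) :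
    {n | (it c α n).natAbs ≤ B}.Finite := by
  have h1 : ((Set.Icc (-(B : ℤ)) B)).Finite := Set.finite_Icc _ _
  refine (h1.preimage (f := it c α) (fun m _ n _ hmn => h m n hmn)).subset ?_
  intro n hn
  have hn' : (it c α n).natAbs ≤ B := hn
  simp only [Set.mem_preimage, Set.mem_Icc]
  omega
-- END fin_wand

-- BEGIN part_b
/-- The rough indices. -/
private def part_b_R {d : ℕ} (H : ℕ) (α : ℤ) (c : Fin (d + 1) → ℤ) (n : ℕ) : Prop :=
  ∀ p : ℕ, p.Prime → p ^ 8 ≤ 2 * H + 1 → ¬ (p : ℤ) ∣ it c α n

/-- The modulus. -/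
private noncomputable def part_b_M (H : ℕ) : ℕ :=
  ∏ p ∈ (range (2 * H + 2)).filter (fun p => p.Prime ∧ p ^ 8 ≤ 2 * H + 1), p

private theorem part_b_M_pos (H : ℕ) : 0 < part_b_M H := by
  unfold part_b_M
  refine Finset.prod_pos fun p hp => ?_
  exact (Finset.mem_filter.1 hp).2.1.pos

private theorem part_b_dvd (H p : ℕ) (hp : p.Prime) (hpH : p ^ 8 ≤ 2 * H + 1) :
    p ∣ part_b_M H := by
  unfold part_b_M
  refine Finset.dvd_prod_of_mem (fun p => p) ?_
  rw [Finset.mem_filter, Finset.mem_range]
  refine ⟨?_, hp, hpH⟩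
  have : p ≤ p ^ 8 := Nat.le_self_pow (by norm_num) p
  omega

private theorem part_b_per {d : ℕ} (H : ℕ) (α : ℤ) (c : Fin (d + 1) → ℤ) (n : ℕ)
    (hn : part_b_M H ≤ n) :
    part_b_R H α c (n + (part_b_M H).factorial) ↔ part_b_R H α c n := by
  have h := evper c α (part_b_M H) (part_b_M_pos H) n hn
  unfold part_b_R
  refine forall_congr' fun p => forall_congr' fun hp => forall_congr' fun hpH => ?_
  have h1 : it c α (n + (part_b_M H).factorial) ≡ it c α n [ZMOD p] :=
    h.of_dvd (by exact_mod_cast part_b_dvd H p hp hpH)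
  exact not_congr h1.dvd_iff

private theorem part_b_fin {d : ℕ} (H : ℕ) (α : ℤ) (c : Fin (d + 1) → ℤ) (h : Wand c α) :
    {n | Prime (it c α n) ∧ ¬ part_b_R H α c n}.Finite := by
  refine (fin_wand c α h (2 * H + 1)).subset ?_
  rintro n ⟨hP, hR⟩
  unfold part_b_R at hR
  push Not at hR
  obtain ⟨p, hp, hpH, hdvd⟩ := hR
  have h1 : (it c α n).natAbs.Prime := Int.prime_iff_natAbs_prime.1 hP
  have h2 : p ∣ (it c α n).natAbs := Int.natCast_dvd.1 hdvd
  have h3 : p = (it c α n).natAbs := (Nat.prime_dvd_prime_iff_eq hp h1).1 h2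
  show (it c α n).natAbs ≤ 2 * H + 1
  rw [← h3]
  exact (Nat.le_self_pow (by norm_num) p).trans hpH

open Classical in
/-- `M = ∏ p` over the primes with `p^8 ≤ 2H+1`, `L = M!`, `R n` = no prime `p` with `p^8 ≤ 2H+1`
divides `it c α n`; `evper`, `ud_le`, `fin_wand`; exchange the sums and use `part_a` for each
`n ∈ [M, M+L)` (`M ≥ 1`). -/
theorem part_b {d H : ℕ} (hd : 2 ≤ d) (hH : 2 ≤ H) (α : ℤ) :
    ∑ c ∈ (box (d + 1) H).filter (fun c => Wand c α), ud (fun n => Prime (it c α n))
      ≤ 3 * (d + 2) * 2 ^ d * (Real.log H) ^ (-(1 / 3) : ℝ) * (2 * H + 1) ^ (d + 1) := by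
  set M := part_b_M H with hM
  set L := M.factorial with hL
  have hM0 : 0 < M := part_b_M_pos H
  have hL0 : 0 < L := Nat.factorial_pos M
  have hL0' : (0 : ℝ) < L := by exact_mod_cast hL0
  set B : ℝ := 3 * (d + 2) * 2 ^ d * (Real.log H) ^ (-(1 / 3) : ℝ) * (2 * H + 1) ^ (d + 1) with hB
  have step1 : ∑ c ∈ (box (d + 1) H).filter (fun c => Wand c α), ud (fun n => Prime (it c α n))
      ≤ ∑ c ∈ (box (d + 1) H).filter (fun c => Wand c α),
        (((Ico M (M + L)).filter (part_b_R H α c)).card : ℝ) / L := by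
    refine Finset.sum_le_sum fun c hc => ?_
    refine ud_le _ _ M L hL0 (part_b_fin H α c (Finset.mem_filter.1 hc).2) ?_
    intro n hn
    exact part_b_per H α c n hn
  have step2 : ∑ c ∈ (box (d + 1) H).filter (fun c => Wand c α),
        (((Ico M (M + L)).filter (part_b_R H α c)).card : ℝ) / L
      ≤ ∑ c ∈ box (d + 1) H, (((Ico M (M + L)).filter (part_b_R H α c)).card : ℝ) / L := by
    refine Finset.sum_le_sum_of_subset_of_nonneg (Finset.filter_subset _ _) fun c _ _ => ?_
    positivity
  have step3 : ∑ c ∈ box (d + 1) H, (((Ico M (M + L)).filter (part_b_R H α c)).card : ℝ)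
      = ∑ n ∈ Ico M (M + L), (((box (d + 1) H).filter fun c => part_b_R H α c n).card : ℝ) := by
    simp only [Finset.card_filter, Nat.cast_sum]
    rw [Finset.sum_comm]
  have step4 : ∑ n ∈ Ico M (M + L), (((box (d + 1) H).filter fun c => part_b_R H α c n).card : ℝ)
      ≤ ∑ _n ∈ Ico M (M + L), B := by
    refine Finset.sum_le_sum fun n hn => ?_
    have hn1 : 1 ≤ n := le_trans hM0 (Finset.mem_Ico.1 hn).1
    have := part_a (n := n) hd hn1 hH α
    unfold part_b_R
    rw [hB]
    exact this
  rw [Finset.sum_const, Nat.card_Ico, Nat.add_sub_cancel_left, nsmul_eq_mul] at step4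
  refine step1.trans (step2.trans ?_)
  rw [← Finset.sum_div, div_le_iff₀ hL0', step3, mul_comm B]
  exact step4
-- END part_b

end Pool.Agent.ODn
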