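import Pool.Agent.ODn.Defs

set_option autoImplicit false

namespace Pool.Agent.ODn

open Finset

variable {K : Type*} [Field K] [Fintype K] [DecidableEq K]

-- BEGIN fib
/-- The values at at most `d+1` distinct points are independent and uniform. Proof: the linear
map `c ↦ (ev c (x j))_j` is onto (Lagrange interpolation), so all its fibres have equal size. -/
theorem fib {d k : ℕ} (hk : k ≤ d + 1) (x : Fin k → K) (hx : Function.Injective x) (y : Fin k → K) :
    (univ.filter fun c : Fin (d + 1) → K => ∀ j, ev c (x j) = y j).card * Fintype.card K ^ k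
      = Fintype.card K ^ (d + 1) := by
  classical
  let f : (Fin (d + 1) → K) →+ (Fin k → K) :=
    { toFun := fun c j => ev c (x j)
      map_zero' := by funext j; simp [ev]
      map_add' := by
        intro c c'
        funext j
        simp [ev, add_mul, Finset.sum_add_distrib] }
  have hf : ∀ c j, f c j = ev c (x j) := fun c j => rfl
  have hsurj : ∀ z : Fin k → K, ∃ c, f c = z := by
    intro z
    set p : Polynomial K := Lagrange.interpolate univ x z with hp
    have hdeg : p.degree < ((d + 1 : ℕ) : WithBot ℕ) := by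
      refine lt_of_lt_of_le (Lagrange.degree_interpolate_lt z (hx.injOn)) ?_
      rw [Finset.card_univ, Fintype.card_fin]
      exact_mod_cast hk
    have hnat : p.natDegree < d + 1 := by
      by_cases h0 : p = 0
      · rw [h0]; simp
      · exact (Polynomial.natDegree_lt_iff_degree_lt h0).2 hdeg
    refine ⟨fun i => p.coeff i, ?_⟩
    funext j
    rw [hf]
    have h1 : p.eval (x j) = z j :=
      Lagrange.eval_interpolate_at_node z (hx.injOn) (mem_univ j)
    rw [← h1, Polynomial.eval_eq_sum_range' hnat]
    unfold ev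
    rw [Finset.sum_range]
  have hset : (univ.filter fun c : Fin (d + 1) → K => ∀ j, ev c (x j) = y j)
      = univ.filter fun c => f c = y := by
    ext c
    simp only [mem_filter, mem_univ, true_and]
    constructor
    · intro h; funext j; exact h j
    · intro h j; exact congrFun h j
  rw [hset]
  have hcard : ∀ z, (univ.filter fun c => f c = z).card = (univ.filter fun c => f c = y).card := by
    intro z
    exact AddMonoidHom.card_fiber_eq_of_mem_range f (hsurj z) (hsurj y)
  have hsum : (univ : Finset (Fin (d + 1) → K)).card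
      = ∑ z : Fin k → K, (univ.filter fun c => f c = z).card :=
    Finset.card_eq_sum_card_fiberwise (fun _ _ => mem_univ _)
  rw [Finset.sum_congr rfl (fun z _ => hcard z), Finset.sum_const, smul_eq_mul,
    Finset.card_univ, Finset.card_univ, Fintype.card_fun, Fintype.card_fun,
    Fintype.card_fin, Fintype.card_fin] at hsum
  rw [mul_comm]
  exact hsum.symm
-- END fib

-- BEGIN mom
omit [Field K] [DecidableEq K] in
private theorem mom_emb {k : ℕ} (p : K → Prop) [DecidablePred p] :
    (univ.filter fun x => p x).card.descFactorial k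
      = (univ.filter fun x : Fin k ↪ K => ∀ j, p (x j)).card := by
  have h1 : (univ.filter fun x => p x).card.descFactorial k
      = Fintype.card (Fin k ↪ {x // p x}) := by
    rw [Fintype.card_embedding_eq, Fintype.card_fin, Fintype.card_subtype]
  rw [h1, ← Fintype.card_subtype]
  refine Fintype.card_congr ?_
  exact
    { toFun := fun f => ⟨f.trans (Function.Embedding.subtype _), fun j => (f j).2⟩
      invFun := fun f => ⟨fun j => ⟨f.1 j, f.2 j⟩, fun i j h => f.1.injective (congrArg Subtype.val h)⟩
      left_inv := fun f => by ext j; rfl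
      right_inv := fun f => by ext j; rfl }

/-- Factorial moments of the number of preimages of `b`. Proof: the `k`-th falling factorial of the
number of roots is the number of embeddings `Fin k ↪ K` with values among the roots
(`Fintype.card_embedding_eq`); exchange the sums and use `fib`. -/
theorem mom {d k : ℕ} (hk : k ≤ d + 1) (b : K) :
    (∑ c : Fin (d + 1) → K, (univ.filter fun x => ev c x = b).card.descFactorial k)
      * Fintype.card K ^ k = (Fintype.card K).descFactorial k * Fintype.card K ^ (d + 1) := by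
  have h1 : (∑ c : Fin (d + 1) → K, (univ.filter fun x => ev c x = b).card.descFactorial k)
      = ∑ x : Fin k ↪ K, (univ.filter fun c : Fin (d + 1) → K => ∀ j, ev c (x j) = b).card := by
    rw [Finset.sum_congr rfl fun c _ => mom_emb (k := k) fun x => ev c x = b]
    simp only [Finset.card_filter]
    exact Finset.sum_comm
  rw [h1, Finset.sum_mul,
    Finset.sum_congr rfl fun (x : Fin k ↪ K) _ => fib hk x x.injective fun _ => b,
    Finset.sum_const, Finset.card_univ, Fintype.card_embedding_eq, Fintype.card_fin, smul_eq_mul]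
-- END mom

-- BEGIN root_le
private theorem root_le_pt (r : ℕ) :
    6 * (if 0 < r then 1 else 0) + 3 * r.descFactorial 2 ≤ 6 * r + r.descFactorial 3 := by
  rcases r with _ | _ | _ | s
  · decide
  · decide
  · decide
  · rw [if_pos (by omega)]
    have h2 : (s + 1 + 1 + 1).descFactorial 2 = (s + 2) * (s + 3) := by
      rw [Nat.descFactorial_succ, Nat.descFactorial_one]
      congr 1
    have h3 : (s + 1 + 1 + 1).descFactorial 3 = (s + 1) * ((s + 2) * (s + 3)) := by
      rw [Nat.descFactorial_succ, h2]
      congr 1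
    rw [h2, h3]
    nlinarith [Nat.zero_le (s * s * s), Nat.zero_le (s * s), Nat.zero_le s]

/-- `b` is a value with probability at most `(2q²+1)/(3q²)`. Proof: for a natural number `r`,
`1[r ≥ 1] ≤ r - r(r-1)/2 + r(r-1)(r-2)/6`, and `mom` for `k = 1, 2, 3`. -/
theorem root_le {d : ℕ} (hd : 2 ≤ d) (b : K) :
    3 * Fintype.card K ^ 2 * (univ.filter fun c : Fin (d + 1) → K => ∃ x, ev c x = b).card
      ≤ (2 * Fintype.card K ^ 2 + 1) * Fintype.card K ^ (d + 1) := by
  classical
  set q := Fintype.card K with hq
  set N := q ^ (d + 1) with hN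
  have hq1 : 1 < q := Fintype.one_lt_card
  obtain ⟨m, hm⟩ : ∃ m, q = m + 2 := ⟨q - 2, by omega⟩
  have m1 := mom (d := d) (k := 1) (by omega) b
  have m2 := mom (d := d) (k := 2) (by omega) b
  have m3 := mom (d := d) (k := 3) (by omega) b
  set M1 := ∑ c : Fin (d + 1) → K, (univ.filter fun x => ev c x = b).card.descFactorial 1 with hM1
  set M2 := ∑ c : Fin (d + 1) → K, (univ.filter fun x => ev c x = b).card.descFactorial 2 with hM2
  set M3 := ∑ c : Fin (d + 1) → K, (univ.filter fun x => ev c x = b).card.descFactorial 3 with hM3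
  set X := (univ.filter fun c : Fin (d + 1) → K => ∃ x, ev c x = b).card with hX
  rw [← hq, ← hN] at m1 m2 m3
  have e1 : q.descFactorial 1 = q := Nat.descFactorial_one q
  have e2 : q.descFactorial 2 = (m + 1) * (m + 2) := by
    rw [Nat.descFactorial_succ, Nat.descFactorial_one, hm]
    congr 1
  have e3 : q.descFactorial 3 = m * ((m + 1) * (m + 2)) := by
    rw [Nat.descFactorial_succ, e2, hm]
    congr 1
  have hsum : 6 * X + 3 * M2 ≤ 6 * M1 + M3 := by
    have h1 : X = ∑ c : Fin (d + 1) → K, if 0 < (univ.filter fun x => ev c x = b).card then 1 else 0 := by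
      rw [hX, Finset.card_filter]
      refine Finset.sum_congr rfl fun c _ => ?_
      have h2 : (∃ x, ev c x = b) ↔ 0 < (univ.filter fun x => ev c x = b).card := by
        rw [Finset.card_pos]
        constructor
        · rintro ⟨x, hx⟩
          exact ⟨x, Finset.mem_filter.2 ⟨Finset.mem_univ x, hx⟩⟩
        · rintro ⟨x, hx⟩
          exact ⟨x, (Finset.mem_filter.1 hx).2⟩
      by_cases h3 : ∃ x, ev c x = b
      · rw [if_pos h3, if_pos (h2.1 h3)]
      · rw [if_neg h3, if_neg fun h4 => h3 (h2.2 h4)]
    have h4 : M1 = ∑ c : Fin (d + 1) → K, (univ.filter fun x => ev c x = b).card :=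
      Finset.sum_congr rfl fun c _ => Nat.descFactorial_one _
    rw [h1, h4, Finset.mul_sum, Finset.mul_sum, Finset.mul_sum, ← Finset.sum_add_distrib,
      ← Finset.sum_add_distrib]
    exact Finset.sum_le_sum fun c _ => root_le_pt _
  rw [e1, pow_one] at m1
  rw [e2] at m2
  rw [e3] at m3
  rw [hm] at m1 m2 m3 ⊢
  have n1 : M1 = N := by
    have h1 : (m + 2) * M1 = (m + 2) * N := by rw [mul_comm, m1]
    exact Nat.eq_of_mul_eq_mul_left (by omega) h1
  have n2 : M2 * (m + 2) = (m + 1) * N := by
    have h1 : (m + 2) * (M2 * (m + 2)) = (m + 2) * ((m + 1) * N) := by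
      calc (m + 2) * (M2 * (m + 2)) = M2 * (m + 2) ^ 2 := by ring
        _ = (m + 2) * ((m + 1) * N) := by rw [m2]; ring
    exact Nat.eq_of_mul_eq_mul_left (by omega) h1
  have n3 : M3 * (m + 2) ^ 2 = m * (m + 1) * N := by
    have h1 : (m + 2) * (M3 * (m + 2) ^ 2) = (m + 2) * (m * (m + 1) * N) := by
      calc (m + 2) * (M3 * (m + 2) ^ 2) = M3 * (m + 2) ^ 3 := by ring
        _ = (m + 2) * (m * (m + 1) * N) := by rw [m3]; ring
    exact Nat.eq_of_mul_eq_mul_left (by omega) h1
  have h5 := Nat.mul_le_mul_left ((m + 2) ^ 2) hsum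
  have h6 : (m + 2) ^ 2 * (6 * X + 3 * M2) = 6 * (m + 2) ^ 2 * X + 3 * (m + 2) * ((m + 1) * N) := by
    rw [← n2]
    ring
  have h7 : (m + 2) ^ 2 * (6 * M1 + M3) = 6 * (m + 2) ^ 2 * N + m * (m + 1) * N := by
    rw [← n3, n1]
    ring
  rw [h6, h7] at h5
  nlinarith [h5]
-- END root_le

-- BEGIN conj
/-- The polynomial with coefficient vector `c`. -/
private noncomputable def conj_P {d : ℕ} (c : Fin (d + 1) → K) : Polynomial K :=
  ∑ i : Fin (d + 1), Polynomial.monomial (i : ℕ) (c i)

omit [Fintype K] [DecidableEq K] in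
private theorem conj_eval {d : ℕ} (c : Fin (d + 1) → K) (x : K) :
    (conj_P c).eval x = ev c x := by
  simp [conj_P, ev, Polynomial.eval_finsetSum]

omit [Fintype K] [DecidableEq K] in
private theorem conj_coeff {d : ℕ} (c : Fin (d + 1) → K) (i : Fin (d + 1)) :
    (conj_P c).coeff i = c i := by
  unfold conj_P
  rw [Polynomial.finsetSum_coeff]
  simp only [Polynomial.coeff_monomial]
  rw [Finset.sum_eq_single i]
  · simp
  · intro j _ hj
    rw [if_neg]
    intro h
    exact hj (Fin.ext h)
  · simp

omit [Fintype K] [DecidableEq K] in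
private theorem conj_deg {d : ℕ} (c : Fin (d + 1) → K) : (conj_P c).natDegree ≤ d := by
  unfold conj_P
  refine Polynomial.natDegree_sum_le_of_forall_le (n := d) univ (fun i : Fin (d + 1) =>
    Polynomial.monomial (i : ℕ) (c i)) fun i _ => ?_
  exact (Polynomial.natDegree_monomial_le _).trans (Nat.lt_succ_iff.1 i.2)

omit [Fintype K] [DecidableEq K] in
private theorem conj_ext {d : ℕ} (P : Polynomial K) (hP : P.natDegree ≤ d) :
    conj_P (fun i : Fin (d + 1) => P.coeff i) = P := by
  ext j
  by_cases hj : j < d + 1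
  · exact conj_coeff (fun i : Fin (d + 1) => P.coeff i) ⟨j, hj⟩
  · rw [Polynomial.coeff_eq_zero_of_natDegree_lt, Polynomial.coeff_eq_zero_of_natDegree_lt]
    · omega
    · have := conj_deg (fun i : Fin (d + 1) => P.coeff i)
      omega

/-- The conjugated polynomial. -/
private noncomputable def conj_Q {d : ℕ} (a s : K) (c : Fin (d + 1) → K) : Polynomial K :=
  Polynomial.C a + Polynomial.C s *
    ((conj_P c).comp (Polynomial.C a + Polynomial.C s⁻¹ * (Polynomial.X - Polynomial.C a))
      - Polynomial.C a)

omit [Fintype K] [DecidableEq K] in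
private theorem conj_Q_deg {d : ℕ} (a s : K) (c : Fin (d + 1) → K) :
    (conj_Q a s c).natDegree ≤ d := by
  unfold conj_Q
  have h1 : (Polynomial.C a + Polynomial.C s⁻¹ * (Polynomial.X - Polynomial.C a) :
      Polynomial K).natDegree ≤ 1 := by
    refine (Polynomial.natDegree_add_le _ _).trans ?_
    rw [Polynomial.natDegree_C, max_le_iff]
    refine ⟨by omega, ?_⟩
    refine (Polynomial.natDegree_C_mul_le _ _).trans ?_
    exact (Polynomial.natDegree_X_sub_C_le _)
  have h2 : ((conj_P c).comp (Polynomial.C a + Polynomial.C s⁻¹ * (Polynomial.X - Polynomial.C a)) :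
      Polynomial K).natDegree ≤ d := by
    refine Polynomial.natDegree_comp_le.trans ?_
    calc _ ≤ d * 1 := Nat.mul_le_mul (conj_deg c) h1
      _ = d := by omega
  refine (Polynomial.natDegree_add_le _ _).trans ?_
  rw [Polynomial.natDegree_C, max_le_iff]
  refine ⟨by omega, ?_⟩
  refine (Polynomial.natDegree_C_mul_le _ _).trans ?_
  refine (Polynomial.natDegree_sub_le _ _).trans ?_
  rw [Polynomial.natDegree_C, max_le_iff]
  exact ⟨h2, by omega⟩

/-- The conjugated coefficient vector. -/
private noncomputable def conj_T {d : ℕ} (a s : K) (c : Fin (d + 1) → K) : Fin (d + 1) → K :=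
  fun i => (conj_Q a s c).coeff i

omit [Fintype K] [DecidableEq K] in
private theorem conj_T_ev {d : ℕ} (a s : K) (c : Fin (d + 1) → K) (x : K) :
    ev (conj_T a s c) x = a + s * (ev c (a + s⁻¹ * (x - a)) - a) := by
  rw [← conj_eval]
  unfold conj_T
  rw [conj_ext _ (conj_Q_deg a s c)]
  unfold conj_Q
  rw [← conj_eval c]
  simp [Polynomial.eval_comp]

omit [Fintype K] [DecidableEq K] in
private theorem conj_T_it {d : ℕ} (a s : K) (hs : s ≠ 0) (c : Fin (d + 1) → K) (n : ℕ) :
    it (conj_T a s c) a n = a + s * (it c a n - a) := by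
  induction n with
  | zero => simp [it]
  | succ n ih =>
    rw [it_succ, it_succ, ih, conj_T_ev]
    have : a + s⁻¹ * (a + s * (it c a n - a) - a) = it c a n := by
      field_simp
      ring
    rw [this]

omit [Fintype K] [DecidableEq K] in
private theorem conj_T_inj {d : ℕ} (a s : K) (hs : s ≠ 0) :
    Function.Injective (conj_T a s : (Fin (d + 1) → K) → Fin (d + 1) → K) := by
  intro c c' h
  have h1 : conj_Q a s c = conj_Q a s c' := by
    rw [← conj_ext _ (conj_Q_deg a s c), ← conj_ext _ (conj_Q_deg a s c')]
    exact congrArg conj_P h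
  unfold conj_Q at h1
  have hCs : (Polynomial.C s : Polynomial K) ≠ 0 := by
    rwa [Ne, Polynomial.C_eq_zero]
  have h2 := sub_left_injective (mul_left_cancel₀ hCs (add_left_cancel h1))
  have h3 : ∀ P : Polynomial K,
      (P.comp (Polynomial.C a + Polynomial.C s⁻¹ * (Polynomial.X - Polynomial.C a))).comp
        (Polynomial.C a + Polynomial.C s * (Polynomial.X - Polynomial.C a)) = P := by
    intro P
    rw [Polynomial.comp_assoc]
    have : (Polynomial.C a + Polynomial.C s⁻¹ * (Polynomial.X - Polynomial.C a)).comp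
        (Polynomial.C a + Polynomial.C s * (Polynomial.X - Polynomial.C a)) = Polynomial.X := by
      simp only [Polynomial.add_comp, Polynomial.mul_comp, Polynomial.sub_comp, Polynomial.C_comp,
        Polynomial.X_comp, add_sub_cancel_left]
      rw [← mul_assoc, ← Polynomial.C_mul, inv_mul_cancel₀ hs, Polynomial.C_1]
      ring
    rw [this, Polynomial.comp_X]
  have h4 : conj_P c = conj_P c' := by
    rw [← h3 (conj_P c), ← h3 (conj_P c')]
    exact congrArg (fun P => Polynomial.comp P _) h2
  funext i
  rw [← conj_coeff c i, ← conj_coeff c' i, h4]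

private theorem conj_le {d : ℕ} (a b b' : K) (hb : b ≠ a) (hb' : b' ≠ a) (n : ℕ) :
    (univ.filter fun c : Fin (d + 1) → K => it c a n = b).card
      ≤ (univ.filter fun c : Fin (d + 1) → K => it c a n = b').card := by
  have h1 : b - a ≠ 0 := sub_ne_zero.2 hb
  have h2 : b' - a ≠ 0 := sub_ne_zero.2 hb'
  have hs : (b' - a) / (b - a) ≠ 0 := div_ne_zero h2 h1
  refine Finset.card_le_card_of_injOn (conj_T a ((b' - a) / (b - a))) ?_
    ((conj_T_inj a _ hs).injOn)
  intro c hc
  simp only [Finset.coe_filter, Finset.mem_univ, true_and, Set.mem_ofPred_eq] at hc ⊢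
  rw [conj_T_it a _ hs, hc]
  field_simp
  ring

/-- Affine conjugation: all values `b ≠ a` of `f^n(a)` are equally likely. Proof: with
`s = (b'-a)/(b-a)` the map `f ↦ a + s (f(a + (x-a)/s) - a)` is a bijection of the polynomials of
degree at most `d` (`Polynomial.degreeLTEquiv`), and it carries `f^n(a)` to `a + s (f^n(a) - a)`. -/
theorem conj {d : ℕ} (a b b' : K) (hb : b ≠ a) (hb' : b' ≠ a) (n : ℕ) :
    (univ.filter fun c : Fin (d + 1) → K => it c a n = b).card
      = (univ.filter fun c : Fin (d + 1) → K => it c a n = b').card :=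
  le_antisymm (conj_le a b b' hb hb' n) (conj_le a b' b hb' hb n)
-- END conj

-- BEGIN loc
/-- The local lemma. Upper bound: `f^n(a) = 0` implies that `0` is a value (`n ≥ 1`), `root_le` and
`(2q²+1)/(3q²) ≤ 3/4` for `q ≥ 2`. Lower bound: if `a = 0` then `f(0) = 0` suffices (`fib`, `k = 1`);
if `a ≠ 0` then by `conj` `(q-1) N(0) = N - N(a)` and `N(a) ≤ N (2q²+1)/(3q²)` by `root_le`. -/
theorem loc {d n : ℕ} (hd : 2 ≤ d) (hn : 1 ≤ n) (a : K) :
    Fintype.card K ^ (d + 1)
      ≤ 3 * Fintype.card K * (univ.filter fun c : Fin (d + 1) → K => it c a n = 0).card ∧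
    4 * (univ.filter fun c : Fin (d + 1) → K => it c a n = 0).card ≤ 3 * Fintype.card K ^ (d + 1) := by
  obtain ⟨m, rfl⟩ : ∃ m, n = m + 1 := ⟨n - 1, by omega⟩
  have hq2 : 2 ≤ Fintype.card K := Fintype.one_lt_card
  have hroot : ∀ b : K, (univ.filter fun c : Fin (d + 1) → K => it c a (m + 1) = b).card ≤
      (univ.filter fun c : Fin (d + 1) → K => ∃ x, ev c x = b).card := by
    intro b
    apply Finset.card_le_card
    intro c hc
    simp only [mem_filter, mem_univ, true_and] at hc ⊢
    rw [it_succ] at hc
    exact ⟨_, hc⟩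
  have hR : ∀ b : K, 3 * Fintype.card K ^ 2 *
      (univ.filter fun c : Fin (d + 1) → K => it c a (m + 1) = b).card
      ≤ (2 * Fintype.card K ^ 2 + 1) * Fintype.card K ^ (d + 1) := fun b =>
    (Nat.mul_le_mul_left _ (hroot b)).trans (root_le hd b)
  generalize hq : Fintype.card K = q at *
  constructor
  · by_cases ha : a = 0
    · subst ha
      have hf := fib (K := K) (d := d) (k := 1) (by omega) (fun _ => 0)
        (fun i j _ => Subsingleton.elim i j) (fun _ => 0)
      rw [hq] at hf
      have hsub : (univ.filter fun c : Fin (d + 1) → K => ∀ _ : Fin 1, ev c (0 : K) = 0).card ≤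
          (univ.filter fun c : Fin (d + 1) → K => it c 0 (m + 1) = 0).card := by
        apply Finset.card_le_card
        intro c hc
        simp only [mem_filter, mem_univ, true_and] at hc ⊢
        have h0 : ev c (0 : K) = 0 := hc 0
        have : ∀ k : ℕ, it c (0 : K) k = 0 := by
          intro k
          induction k with
          | zero => rfl
          | succ k ih => rw [it_succ, ih, h0]
        exact this _
      calc q ^ (d + 1) = _ * q ^ 1 := hf.symm
        _ ≤ (univ.filter fun c : Fin (d + 1) → K => it c 0 (m + 1) = 0).card * q ^ 1 :=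
            Nat.mul_le_mul_right _ hsub
        _ ≤ 3 * q * (univ.filter fun c : Fin (d + 1) → K => it c 0 (m + 1) = 0).card := by
            nlinarith [Nat.zero_le (q * (univ.filter fun c : Fin (d + 1) → K => it c 0 (m + 1) = 0).card)]
    · have hsum : q ^ (d + 1) = ∑ b : K, (univ.filter fun c : Fin (d + 1) → K => it c a (m + 1) = b).card := by
        have h1 := Finset.card_eq_sum_card_fiberwise (f := fun c : Fin (d + 1) → K => it c a (m + 1))
          (s := univ) (t := (univ : Finset K)) (fun _ _ => by simp)
        rw [← h1, Finset.card_univ, Fintype.card_fun, hq, Fintype.card_fin]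
      have hsplit : ∑ b : K, (univ.filter fun c : Fin (d + 1) → K => it c a (m + 1) = b).card =
          (univ.filter fun c : Fin (d + 1) → K => it c a (m + 1) = a).card +
          (q - 1) * (univ.filter fun c : Fin (d + 1) → K => it c a (m + 1) = 0).card := by
        rw [← Finset.add_sum_erase univ _ (mem_univ a)]
        congr 1
        rw [Finset.sum_congr rfl (g := fun _ =>
          (univ.filter fun c : Fin (d + 1) → K => it c a (m + 1) = 0).card), Finset.sum_const,
          Finset.card_erase_of_mem (mem_univ a), Finset.card_univ, hq, smul_eq_mul]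
        intro b hb
        exact conj a b 0 (Finset.ne_of_mem_erase hb) (fun h => ha h.symm) (m + 1)
      have hRa := hR a
      rw [hsplit] at hsum
      generalize (univ.filter fun c : Fin (d + 1) → K => it c a (m + 1) = a).card = A at *
      generalize (univ.filter fun c : Fin (d + 1) → K => it c a (m + 1) = 0).card = Z at *
      generalize q ^ (d + 1) = N at *
      obtain ⟨r, rfl⟩ : ∃ r, q = r + 2 := ⟨q - 2, by omega⟩
      have e1 : r + 2 - 1 = r + 1 := by omega
      rw [e1] at hsum
      -- (r+1) * ((r+3) N) ≤ (r+1) * (3 (r+2)^2 Z)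
      have h2 : (r + 1) * ((r + 3) * N) ≤ (r + 1) * (3 * (r + 2) ^ 2 * Z) := by
        zify at hsum hRa ⊢
        nlinarith [hsum, hRa]
      have h3 : (r + 3) * N ≤ 3 * (r + 2) ^ 2 * Z := Nat.le_of_mul_le_mul_left h2 (by omega)
      have h4 : (r + 2) * N ≤ (r + 2) * (3 * (r + 2) * Z) := by nlinarith
      exact Nat.le_of_mul_le_mul_left h4 (by omega)
  · have h0 := hR 0
    generalize (univ.filter fun c : Fin (d + 1) → K => it c a (m + 1) = 0).card = Z at *
    generalize q ^ (d + 1) = N at *
    have h5 : 3 * q ^ 2 * (4 * Z) ≤ 3 * q ^ 2 * (3 * N) := by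
      have : 4 * (2 * q ^ 2 + 1) * N ≤ 9 * q ^ 2 * N := Nat.mul_le_mul_right _ (by nlinarith)
      nlinarith
    exact Nat.le_of_mul_le_mul_left h5 (by positivity)
-- END loc

end Pool.Agent.ODn
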