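import Pool.Agent.ODn.Defs

set_option autoImplicit false

namespace Pool.Agent.ODn

open Finset

-- BEGIN cube
private theorem cube_mul {a b : ℕ} (h : a.Coprime b) :
    ∏ p ∈ (a * b).primeFactors, 1 / (3 * (p : ℝ))
      = (∏ p ∈ a.primeFactors, 1 / (3 * (p : ℝ))) * ∏ p ∈ b.primeFactors, 1 / (3 * (p : ℝ)) := by
  rw [h.primeFactors_mul, Finset.prod_union h.disjoint_primeFactors]

private theorem cube_card {m : ℕ} (hm : Squarefree m) :
    (1 : ℝ) / m = 3 ^ m.primeFactors.card * ∏ p ∈ m.primeFactors, 1 / (3 * (p : ℝ)) := by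
  have h1 : (m : ℝ) = ∏ p ∈ m.primeFactors, (p : ℝ) := by
    have h0 := congrArg (fun n : ℕ => (n : ℝ)) (Nat.prod_primeFactors_of_squarefree hm)
    simp only [Nat.cast_prod] at h0
    exact h0.symm
  calc (1 : ℝ) / m = ∏ p ∈ m.primeFactors, (1 / (p : ℝ)) := by
        rw [Finset.prod_div_distrib, Finset.prod_const_one, ← h1]
    _ = ∏ p ∈ m.primeFactors, (3 * (1 / (3 * (p : ℝ)))) := by
        refine Finset.prod_congr rfl fun p hp => ?_
        have h2 : (p : ℝ) ≠ 0 := by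
          exact_mod_cast (Nat.prime_of_mem_primeFactors hp).ne_zero
        field_simp
    _ = _ := by rw [Finset.prod_mul_distrib, Finset.prod_const]

private theorem cube_three {m : ℕ} (hm : Squarefree m) (f : Fin 3 → ℕ)
    (hf : f ∈ Nat.finMulAntidiag 3 m) :
    ∏ i, ∏ p ∈ (f i).primeFactors, 1 / (3 * (p : ℝ)) = ∏ p ∈ m.primeFactors, 1 / (3 * (p : ℝ)) := by
  have h1 := Nat.finMulAntidiag_three f hf
  have h2 : f 0 * (f 1 * f 2) = m := by rw [← h1, mul_assoc]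
  have h3 : (f 0).Coprime (f 1 * f 2) := Nat.coprime_of_squarefree_mul (by rw [h2]; exact hm)
  have h4 : (f 1).Coprime (f 2) := by
    have h5 : Squarefree (f 1 * f 2) := hm.squarefree_of_dvd ⟨f 0, by rw [← h2, mul_comm]⟩
    exact Nat.coprime_of_squarefree_mul h5
  rw [Fin.prod_univ_three, ← h2, cube_mul h3, cube_mul h4, mul_assoc]

/-- `S₀³ ≥ ∑ 1/m`: expand the cube over triples, keep those whose product `m` is squarefree and at
most `Q`; a squarefree `m` has `3^ω(m)` ordered factorisations (`Nat.card_finMulAntidiag_of_squarefree`),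
each with weight `3^(-ω(m))/m`. -/
theorem cube (Q : ℕ) :
    ∑ m ∈ sf Q, (1 : ℝ) / m ≤ (∑ m ∈ sf Q, ∏ p ∈ m.primeFactors, 1 / (3 * (p : ℝ))) ^ 3 := by
  classical
  have hpos : ∀ m : ℕ, (0 : ℝ) ≤ ∏ p ∈ m.primeFactors, 1 / (3 * (p : ℝ)) := by
    intro m
    exact Finset.prod_nonneg fun p _ => by positivity
  have h1 : ∀ m ∈ sf Q, (1 : ℝ) / m = ∑ f ∈ Nat.finMulAntidiag 3 m,
      ∏ i, ∏ p ∈ (f i).primeFactors, 1 / (3 * (p : ℝ)) := by
    intro m hm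
    have hs : Squarefree m := (mem_filter.1 hm).2
    rw [Finset.sum_congr rfl fun f hf => cube_three hs f hf, Finset.sum_const,
      Nat.card_finMulAntidiag_of_squarefree hs, cube_card hs, nsmul_eq_mul,
      ArithmeticFunction.cardDistinctFactors_apply, ← List.card_toFinset, Nat.toFinset_factors]
    push_cast
    rfl
  rw [Finset.sum_congr rfl h1, Finset.sum_pow', ← Finset.sum_biUnion]
  · refine Finset.sum_le_sum_of_subset_of_nonneg ?_ ?_
    · intro f hf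
      rw [mem_biUnion] at hf
      obtain ⟨m, hm, hf⟩ := hf
      have hs : Squarefree m := (mem_filter.1 hm).2
      have hQ := mem_Icc.1 (mem_filter.1 hm).1
      rw [Fintype.mem_piFinset]
      intro i
      have hd := Nat.dvd_of_mem_finMulAntidiag hf i
      have h0 := Nat.ne_zero_of_mem_finMulAntidiag hf i
      exact mem_filter.2 ⟨mem_Icc.2 ⟨Nat.one_le_iff_ne_zero.2 h0,
        (Nat.le_of_dvd (by omega) hd).trans hQ.2⟩, hs.squarefree_of_dvd hd⟩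
    · intro f _ _
      exact Finset.prod_nonneg fun i _ => hpos _
  · intro a _ b _ hab
    refine Finset.disjoint_left.2 fun f hf hg => hab ?_
    rw [← Nat.prod_eq_of_mem_finMulAntidiag hf, ← Nat.prod_eq_of_mem_finMulAntidiag hg]
-- END cube

-- BEGIN harm
private theorem harm_inj (Q : ℕ) :
    ∑ n ∈ Icc 1 Q, (1 : ℝ) / n ≤
      ∑ x ∈ (Icc 1 Q) ×ˢ (sf Q), (1 : ℝ) / ((x.1 : ℝ) ^ 2 * x.2) := by
  have h0 : ∀ n ∈ Icc 1 Q, ∃ x : ℕ × ℕ, x ∈ (Icc 1 Q) ×ˢ (sf Q) ∧ x.1 ^ 2 * x.2 = n := by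
    intro n hn
    rw [mem_Icc] at hn
    obtain ⟨a, b, hab, ha⟩ := Nat.sq_mul_squarefree n
    have hn0 : n ≠ 0 := by omega
    have ha1 : 1 ≤ a := Nat.pos_of_ne_zero (by rintro rfl; simp at hab; omega)
    have hb1 : 1 ≤ b := Nat.pos_of_ne_zero (by rintro rfl; simp at hab; omega)
    refine ⟨(b, a), ?_, hab⟩
    rw [mem_product, mem_Icc]
    refine ⟨⟨hb1, ?_⟩, ?_⟩
    · calc b ≤ b ^ 2 * a := by nlinarith [Nat.mul_le_mul hb1 ha1, Nat.mul_le_mul_left b hb1]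
        _ = n := hab
        _ ≤ Q := hn.2
    · simp only [sf, mem_filter, mem_Icc]
      refine ⟨⟨ha1, ?_⟩, ha⟩
      calc a ≤ b ^ 2 * a := Nat.le_mul_of_pos_left a (by positivity)
        _ = n := hab
        _ ≤ Q := hn.2
  choose! g hg using h0
  have h1 : ∑ n ∈ Icc 1 Q, (1 : ℝ) / n =
      ∑ n ∈ Icc 1 Q, (1 : ℝ) / (((g n).1 : ℝ) ^ 2 * (g n).2) := by
    refine sum_congr rfl fun n hn => ?_
    have := (hg n hn).2
    rw [show (n : ℝ) = (((g n).1 ^ 2 * (g n).2 : ℕ) : ℝ) by rw [this]]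
    push_cast
    rfl
  rw [h1, ← sum_image (f := fun x : ℕ × ℕ => (1 : ℝ) / ((x.1 : ℝ) ^ 2 * x.2)) (g := g)]
  · refine sum_le_sum_of_subset_of_nonneg ?_ fun x _ _ => by positivity
    intro x hx
    rw [mem_image] at hx
    obtain ⟨n, hn, rfl⟩ := hx
    exact (hg n hn).1
  · intro n hn n' hn' h
    rw [← (hg n hn).2, ← (hg n' hn').2, h]

/-- Every `n` is `m k²` with `m` squarefree (`Nat.sq_mul_squarefree`), `∑ 1/k² ≤ 2`, and
`log (Q+1) ≤ ∑_{n ≤ Q} 1/n` (`log_add_one_le_harmonic`). -/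
theorem harm (Q : ℕ) : Real.log (Q + 1) ≤ 2 * ∑ m ∈ sf Q, (1 : ℝ) / m := by
  have h1 : Real.log (Q + 1) ≤ ∑ n ∈ Icc 1 Q, (1 : ℝ) / n := by
    have h := log_add_one_le_harmonic Q
    rw [harmonic_eq_sum_Icc] at h
    push_cast at h
    simpa [one_div] using h
  have h2 : ∑ k ∈ Icc 1 Q, (1 : ℝ) / (k : ℝ) ^ 2 ≤ 2 := by
    have h := sum_Ioo_inv_sq_le (α := ℝ) 0 (Q + 1)
    have h3 : Ioo 0 (Q + 1) = Icc 1 Q := by
      ext k
      simp only [mem_Ioo, mem_Icc]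
      omega
    rw [h3] at h
    simpa [one_div] using h
  have h3 : ∑ x ∈ (Icc 1 Q) ×ˢ (sf Q), (1 : ℝ) / ((x.1 : ℝ) ^ 2 * x.2) =
      (∑ k ∈ Icc 1 Q, (1 : ℝ) / (k : ℝ) ^ 2) * ∑ m ∈ sf Q, (1 : ℝ) / m := by
    rw [sum_product, sum_mul_sum]
    refine sum_congr rfl fun k _ => sum_congr rfl fun m _ => ?_
    rw [one_div_mul_one_div]
  calc Real.log (Q + 1) ≤ ∑ n ∈ Icc 1 Q, (1 : ℝ) / n := h1
    _ ≤ ∑ x ∈ (Icc 1 Q) ×ˢ (sf Q), (1 : ℝ) / ((x.1 : ℝ) ^ 2 * x.2) := harm_inj Q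
    _ = (∑ k ∈ Icc 1 Q, (1 : ℝ) / (k : ℝ) ^ 2) * ∑ m ∈ sf Q, (1 : ℝ) / m := h3
    _ ≤ 2 * ∑ m ∈ sf Q, (1 : ℝ) / m :=
        mul_le_mul_of_nonneg_right h2 (sum_nonneg fun m _ => by positivity)
-- END harm

-- BEGIN three
theorem three (m : ℕ) (hm : 1 ≤ m) : (3 : ℝ) ^ m.primeFactors.card ≤ (m : ℝ) ^ 2 := by
  have h1 : 3 ^ m.primeFactors.card ≤ m ^ 2 := by
    calc 3 ^ m.primeFactors.card = ∏ _p ∈ m.primeFactors, 3 := by rw [prod_const]
      _ ≤ ∏ p ∈ m.primeFactors, p ^ 2 := by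
          refine prod_le_prod' fun p hp => ?_
          have h2 := (Nat.prime_of_mem_primeFactors hp).two_le
          nlinarith
      _ = (∏ p ∈ m.primeFactors, p) ^ 2 := by rw [prod_pow]
      _ ≤ m ^ 2 := Nat.pow_le_pow_left (Nat.le_of_dvd hm (Nat.prod_primeFactors_dvd m)) 2
  exact_mod_cast h1
-- END three

end Pool.Agent.ODn
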