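import Pool.Agent.ODn.Loc
import Pool.Agent.ODn.Crt
import Pool.Agent.ODn.Box
import Pool.Agent.ODn.Num

set_option autoImplicit false

namespace Pool.Agent.ODn

open Finset

-- BEGIN gp_bd
/-- `card_rs` and `loc` for `K = ZMod p`. -/
theorem gp_bd {d n p : ℕ} (hd : 2 ≤ d) (hn : 1 ≤ n) (hp' : p.Prime) (α : ℤ) :
    1 / (3 * (p : ℝ)) ≤ gp d n α p ∧ gp d n α p ≤ 3 / 4 := by
  have : Fact p.Prime := ⟨hp'⟩
  obtain ⟨h1, h2⟩ := loc (K := ZMod p) (d := d) (n := n) hd hn (α : ZMod p)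
  rw [← card_rs, ZMod.card] at h1 h2
  have hp0 : (0 : ℝ) < p := by exact_mod_cast hp'.pos
  have hP : (0 : ℝ) < (p : ℝ) ^ (d + 1) := by positivity
  have h1' : (p : ℝ) ^ (d + 1)
      ≤ 3 * p * (((rs (d + 1) p).filter fun c => (p : ℤ) ∣ it c α n).card : ℝ) := by
    exact_mod_cast h1
  have h2' : 4 * (((rs (d + 1) p).filter fun c => (p : ℤ) ∣ it c α n).card : ℝ)
      ≤ 3 * (p : ℝ) ^ (d + 1) := by
    exact_mod_cast h2
  unfold gp
  constructor
  · rw [div_le_div_iff₀ (by positivity) hP]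
    linarith
  · rw [div_le_div_iff₀ hP (by norm_num)]
    linarith
-- END gp_bd

-- BEGIN hp_bd
theorem hp_bd {d n p : ℕ} (hd : 2 ≤ d) (hn : 1 ≤ n) (hp' : p.Prime) (α : ℤ) :
    1 / (3 * (p : ℝ)) ≤ hp d n α p ∧ hp d n α p ≤ 3 := by
  obtain ⟨h1, h2⟩ := gp_bd hd hn hp' α
  have hp0 : (0 : ℝ) < p := Nat.cast_pos.2 hp'.pos
  have h3 : (0 : ℝ) < 1 / (3 * (p : ℝ)) := by positivity
  have h4 : 0 < gp d n α p := lt_of_lt_of_le h3 h1
  have h5 : 0 < 1 - gp d n α p := by linarith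
  unfold hp
  constructor
  · refine h1.trans ?_
    rw [le_div_iff₀ h5]
    nlinarith
  · rw [div_le_iff₀ h5]
    linarith
-- END hp_bd

-- BEGIN om_per
theorem om_per (d n : ℕ) (α : ℤ) (p : ℕ) : Per p (om d n α p) := by
  intro c c' h
  have h1 := it_modEq p c c' h α n
  have h2 : ((p : ℤ) ∣ it c α n) ↔ ((p : ℤ) ∣ it c' α n) := by
    rw [← Int.modEq_zero_iff_dvd, ← Int.modEq_zero_iff_dvd]
    exact ⟨fun h => h1.symm.trans h, fun h => h1.trans h⟩
  unfold om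
  by_cases h3 : (p : ℤ) ∣ it c α n
  · rw [if_pos h3, if_pos (h2.1 h3)]
  · rw [if_neg h3, if_neg (fun h => h3 (h2.2 h))]
-- END om_per

-- BEGIN om_sum
/-- Mean zero and mean square `hp`: with `g` the density, `-g + (1-g) h = 0` and
`g + (1-g) h² = h`. -/
theorem om_sum {d n p : ℕ} (hd : 2 ≤ d) (hn : 1 ≤ n) (hp' : p.Prime) (α : ℤ) :
    sm p (om d n α p) = 0 ∧
    sm p (fun c => om d n α p c * om d n α p c) = hp d n α p * (p : ℝ) ^ (d + 1) := by
  have hp0 : (0 : ℝ) < p := by exact_mod_cast hp'.pos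
  have hP : (0 : ℝ) < (p : ℝ) ^ (d + 1) := by positivity
  have hg := (gp_bd hd hn hp' α).2
  have hg1 : (1 : ℝ) - gp d n α p ≠ 0 := by linarith
  have hc : ((rs (d + 1) p).card : ℝ) = (p : ℝ) ^ (d + 1) := by
    simp [rs, Fintype.card_piFinset]
  have hN : (((rs (d + 1) p).filter fun c => (p : ℤ) ∣ it c α n).card : ℝ)
      = gp d n α p * (p : ℝ) ^ (d + 1) := by
    unfold gp
    field_simp
  have hM : (((rs (d + 1) p).filter fun c => ¬ (p : ℤ) ∣ it c α n).card : ℝ)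
      = (1 - gp d n α p) * (p : ℝ) ^ (d + 1) := by
    have h := Finset.card_filter_add_card_filter_not (s := rs (d + 1) p)
      (fun c => (p : ℤ) ∣ it c α n)
    have h' : (((rs (d + 1) p).filter fun c => (p : ℤ) ∣ it c α n).card : ℝ)
        + (((rs (d + 1) p).filter fun c => ¬ (p : ℤ) ∣ it c α n).card : ℝ)
        = ((rs (d + 1) p).card : ℝ) := by exact_mod_cast h
    rw [hN, hc] at h'
    linarith
  have key : ∀ a b : ℝ, (∑ c ∈ rs (d + 1) p, if (p : ℤ) ∣ it c α n then a else b)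
      = gp d n α p * (p : ℝ) ^ (d + 1) * a + (1 - gp d n α p) * (p : ℝ) ^ (d + 1) * b := by
    intro a b
    rw [Finset.sum_ite, Finset.sum_const, Finset.sum_const, nsmul_eq_mul, nsmul_eq_mul, hN, hM]
  constructor
  · have h1 : sm p (om d n α p)
        = ∑ c ∈ rs (d + 1) p, if (p : ℤ) ∣ it c α n then (-1 : ℝ) else hp d n α p := rfl
    rw [h1, key, hp]
    field_simp
    ring
  · have h1 : sm p (fun c => om d n α p c * om d n α p c)
        = ∑ c ∈ rs (d + 1) p,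
          if (p : ℤ) ∣ it c α n then ((-1 : ℝ) * (-1)) else hp d n α p * hp d n α p := by
      unfold sm
      refine Finset.sum_congr rfl fun c _ => ?_
      by_cases h : (p : ℤ) ∣ it c α n
      · simp [om, h]
      · simp [om, h]
    rw [h1, key, hp]
    field_simp
    ring
-- END om_sum

-- BEGIN OM_bd
/-- `|OM m| ≤ 3^ω(m) ≤ m²`. -/
theorem OM_bd {d n m : ℕ} (hd : 2 ≤ d) (hn : 1 ≤ n) (hm : 1 ≤ m) (α : ℤ) (c : Fin (d + 1) → ℤ) :
    |OM d n α m c| ≤ (m : ℝ) ^ 2 := by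
  unfold OM
  rw [Finset.abs_prod]
  refine le_trans ?_ (three m hm)
  rw [← Finset.prod_const]
  apply Finset.prod_le_prod
  · intro p _
    exact abs_nonneg _
  · intro p hp
    have hpp : p.Prime := Nat.prime_of_mem_primeFactors hp
    have h := hp_bd hd hn hpp α
    have h0 : (0 : ℝ) ≤ 1 / (3 * (p : ℝ)) := by positivity
    unfold om
    split_ifs
    · rw [abs_neg, abs_one]
      norm_num
    · rw [abs_of_nonneg (le_trans h0 h.1)]
      exact h.2
-- END OM_bd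

-- BEGIN OM_orth
private theorem OM_orth_lcm {m m' : ℕ} (hm : Squarefree m) (hm' : Squarefree m') :
    m.lcm m' = ∏ p ∈ m.primeFactors ∪ m'.primeFactors, p := by
  have h0 : m ≠ 0 := hm.ne_zero
  have h0' : m' ≠ 0 := hm'.ne_zero
  have hl : m.lcm m' ≠ 0 := Nat.lcm_ne_zero h0 h0'
  have hsq : Squarefree (m.lcm m') := by
    rw [Nat.squarefree_iff_factorization_le_one hl]
    intro p
    rw [Nat.factorization_lcm h0 h0', Finsupp.sup_apply]
    exact sup_le ((Nat.squarefree_iff_factorization_le_one h0).1 hm p)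
      ((Nat.squarefree_iff_factorization_le_one h0').1 hm' p)
  have hpf : (m.lcm m').primeFactors = m.primeFactors ∪ m'.primeFactors := by
    ext p
    rw [Finset.mem_union, Nat.mem_primeFactors, Nat.mem_primeFactors, Nat.mem_primeFactors]
    constructor
    · rintro ⟨hp, hd, _⟩
      rcases (Nat.Prime.dvd_mul hp).1 (hd.trans (Nat.lcm_dvd_mul m m')) with h | h
      · exact Or.inl ⟨hp, h, h0⟩
      · exact Or.inr ⟨hp, h, h0'⟩
    · rintro (⟨hp, hd, _⟩ | ⟨hp, hd, _⟩)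
      · exact ⟨hp, hd.trans (Nat.dvd_lcm_left m m'), hl⟩
      · exact ⟨hp, hd.trans (Nat.dvd_lcm_right m m'), hl⟩
  rw [← hpf, Nat.prod_primeFactors_of_squarefree hsq]

private theorem OM_orth_per (d n : ℕ) (α : ℤ) (m l : ℕ) (hl : m ∣ l) : Per l (OM d n α m) := by
  intro c c' h
  unfold OM
  apply Finset.prod_congr rfl
  intro p hp
  apply om_per
  intro i
  apply (h i).of_dvd
  exact Int.natCast_dvd_natCast.2 ((Nat.dvd_of_mem_primeFactors hp).trans hl)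

/-- Orthogonality: the product is `∏` over the primes of `lcm m m'` of `om`, `om²` or `1`;
`crt_prod`, `om_sum`. -/
theorem OM_orth {d n m m' : ℕ} (hd : 2 ≤ d) (hn : 1 ≤ n) (hm : Squarefree m) (hm' : Squarefree m')
    (α : ℤ) :
    Per (m.lcm m') (fun c : Fin (d + 1) → ℤ => OM d n α m c * OM d n α m' c) ∧
    sm (m.lcm m') (fun c => OM d n α m c * OM d n α m' c)
      = if m = m' then HM d n α m * (m : ℝ) ^ (d + 1) else 0 := by
  refine ⟨?_, ?_⟩
  · intro c c' h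
    show OM d n α m c * OM d n α m' c = OM d n α m c' * OM d n α m' c'
    rw [OM_orth_per d n α m _ (Nat.dvd_lcm_left m m') c c' h,
      OM_orth_per d n α m' _ (Nat.dvd_lcm_right m m') c c' h]
  · have hpr : ∀ p ∈ m.primeFactors ∪ m'.primeFactors, p.Prime := by
      intro p hp
      rcases Finset.mem_union.1 hp with hp | hp <;> exact Nat.prime_of_mem_primeFactors hp
    have hcrt := crt_prod (k := d + 1) (m.primeFactors ∪ m'.primeFactors) hpr
      (fun p c => (if p ∈ m.primeFactors then om d n α p c else 1) *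
        (if p ∈ m'.primeFactors then om d n α p c else 1))
      (by
        intro p _ c c' h
        have h1 : om d n α p c = om d n α p c' := om_per d n α p c c' h
        simp only [h1])
    have hprod : ∀ c : Fin (d + 1) → ℤ, ∏ p ∈ m.primeFactors ∪ m'.primeFactors,
        ((if p ∈ m.primeFactors then om d n α p c else 1) *
        (if p ∈ m'.primeFactors then om d n α p c else 1)) = OM d n α m c * OM d n α m' c := by
      intro c
      rw [Finset.prod_mul_distrib, Finset.prod_ite_mem, Finset.prod_ite_mem,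
        Finset.union_inter_cancel_left, Finset.union_inter_cancel_right]
      rfl
    simp only [hprod] at hcrt
    rw [OM_orth_lcm hm hm', hcrt]
    by_cases hmm : m = m'
    · subst hmm
      rw [if_pos rfl, Finset.union_idempotent]
      have h2 : ∀ p ∈ m.primeFactors, sm p (fun c : Fin (d + 1) → ℤ =>
          (if p ∈ m.primeFactors then om d n α p c else 1) *
          (if p ∈ m.primeFactors then om d n α p c else 1)) = hp d n α p * (p : ℝ) ^ (d + 1) := by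
        intro p hp'
        simp only [hp', if_true]
        exact (om_sum hd hn (Nat.prime_of_mem_primeFactors hp') α).2
      rw [Finset.prod_congr rfl h2, Finset.prod_mul_distrib, Finset.prod_pow]
      unfold HM
      congr 2
      rw [← Nat.cast_prod, Nat.prod_primeFactors_of_squarefree hm]
    · rw [if_neg hmm]
      have h3 : m.primeFactors ≠ m'.primeFactors := by
        intro h
        apply hmm
        rw [← Nat.prod_primeFactors_of_squarefree hm, h, Nat.prod_primeFactors_of_squarefree hm']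
      have h4 : ∃ p ∈ m.primeFactors ∪ m'.primeFactors, ¬ (p ∈ m.primeFactors ↔ p ∈ m'.primeFactors) := by
        by_contra hcon
        simp only [not_exists, not_and, not_not] at hcon
        apply h3
        ext p
        constructor
        · intro hp'
          exact (hcon p (Finset.mem_union_left _ hp')).1 hp'
        · intro hp'
          exact (hcon p (Finset.mem_union_right _ hp')).2 hp'
      obtain ⟨p, hpu, hpn⟩ := h4
      apply Finset.prod_eq_zero hpu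
      have h5 := (om_sum hd hn (hpr p hpu) α).1
      by_cases hA : p ∈ m.primeFactors
      · have hB : p ∉ m'.primeFactors := fun h => hpn ⟨fun _ => h, fun _ => hA⟩
        simp only [hA, hB, if_true, if_false, mul_one]
        exact h5
      · have hB : p ∈ m'.primeFactors := by
          rcases Finset.mem_union.1 hpu with h | h
          · exact absurd h hA
          · exact h
        simp only [hA, hB, if_true, if_false, one_mul]
        exact h5
-- END OM_orth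

-- BEGIN second
private theorem second_mem {Q m : ℕ} (h : m ∈ sf Q) : 1 ≤ m ∧ m ≤ Q ∧ Squarefree m := by
  unfold sf at h
  rw [mem_filter, mem_Icc] at h
  exact ⟨h.1.1, h.1.2, h.2⟩

private theorem second_pair {d n Q H : ℕ} (hd : 2 ≤ d) (hn : 1 ≤ n) (hQ : Q ^ 8 ≤ 2 * H + 1)
    (α : ℤ) {m m' : ℕ} (hm : m ∈ sf Q) (hm' : m' ∈ sf Q) :
    ∑ c ∈ box (d + 1) H, OM d n α m c * OM d n α m' c
      ≤ (if m = m' then (2 * H + 1 : ℝ) ^ (d + 1) * HM d n α m else 0)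
        + (Q : ℝ) ^ 6 * ((d + 1) * 2 ^ d * (2 * H + 1) ^ d) := by
  obtain ⟨h1, h2, h3⟩ := second_mem hm
  obtain ⟨h1', h2', h3'⟩ := second_mem hm'
  have hQ1 : 1 ≤ Q := le_trans h1 h2
  have hL0 : 0 < m.lcm m' := Nat.lcm_pos h1 h1'
  have hLle : m.lcm m' ≤ Q ^ 2 := by
    calc m.lcm m' ≤ m * m' := Nat.le_of_dvd (Nat.mul_pos h1 h1') (Nat.lcm_dvd_mul m m')
      _ ≤ Q * Q := Nat.mul_le_mul h2 h2'
      _ = Q ^ 2 := by ring
  have hLH : m.lcm m' ≤ 2 * H + 1 :=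
    le_trans hLle (le_trans (Nat.pow_le_pow_right hQ1 (by norm_num)) hQ)
  have hmQ : (m : ℝ) ≤ Q := by exact_mod_cast h2
  have hmQ' : (m' : ℝ) ≤ Q := by exact_mod_cast h2'
  have hQr : (1 : ℝ) ≤ Q := by exact_mod_cast hQ1
  obtain ⟨hper, hsm⟩ := OM_orth hd hn h3 h3' α
  have hB : ∀ c : Fin (d + 1) → ℤ, |OM d n α m c * OM d n α m' c| ≤ (Q : ℝ) ^ 4 := by
    intro c
    rw [abs_mul]
    have ha := OM_bd hd hn h1 α c
    have hb := OM_bd hd hn h1' α c
    have ha' : |OM d n α m c| ≤ (Q : ℝ) ^ 2 :=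
      le_trans ha (pow_le_pow_left₀ (Nat.cast_nonneg m) hmQ 2)
    have hb' : |OM d n α m' c| ≤ (Q : ℝ) ^ 2 :=
      le_trans hb (pow_le_pow_left₀ (Nat.cast_nonneg m') hmQ' 2)
    calc |OM d n α m c| * |OM d n α m' c| ≤ (Q : ℝ) ^ 2 * (Q : ℝ) ^ 2 :=
          mul_le_mul ha' hb' (abs_nonneg _) (by positivity)
      _ = (Q : ℝ) ^ 4 := by ring
  have hbs := box_sum hL0 hLH (fun c => OM d n α m c * OM d n α m' c) hper _ hB
  rw [hsm] at hbs
  have hup := (abs_sub_le_iff.1 hbs).1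
  have hLr : ((m.lcm m' : ℕ) : ℝ) ≤ (Q : ℝ) ^ 2 := by exact_mod_cast hLle
  have herr : (Q : ℝ) ^ 4 * ((d + 1) * 2 ^ d * ((m.lcm m' : ℕ) : ℝ) * (2 * H + 1) ^ d)
      ≤ (Q : ℝ) ^ 6 * ((d + 1) * 2 ^ d * (2 * H + 1) ^ d) := by
    have hX : (0 : ℝ) ≤ (Q : ℝ) ^ 4 * ((d + 1) * 2 ^ d * (2 * H + 1) ^ d) := by positivity
    calc (Q : ℝ) ^ 4 * ((d + 1) * 2 ^ d * ((m.lcm m' : ℕ) : ℝ) * (2 * H + 1) ^ d)
        = ((m.lcm m' : ℕ) : ℝ) * ((Q : ℝ) ^ 4 * ((d + 1) * 2 ^ d * (2 * H + 1) ^ d)) := by ring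
      _ ≤ (Q : ℝ) ^ 2 * ((Q : ℝ) ^ 4 * ((d + 1) * 2 ^ d * (2 * H + 1) ^ d)) :=
          mul_le_mul_of_nonneg_right hLr hX
      _ = (Q : ℝ) ^ 6 * ((d + 1) * 2 ^ d * (2 * H + 1) ^ d) := by ring
  have hmain : ((2 * H + 1 : ℝ) / ((m.lcm m' : ℕ) : ℝ)) ^ (d + 1)
        * (if m = m' then HM d n α m * (m : ℝ) ^ (d + 1) else 0)
      = (if m = m' then (2 * H + 1 : ℝ) ^ (d + 1) * HM d n α m else 0) := by
    by_cases hmm : m = m'
    · subst hmm
      have hm0 : (m : ℝ) ≠ 0 := by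
        have : (0 : ℝ) < m := by exact_mod_cast h1
        exact this.ne'
      rw [if_pos rfl, if_pos rfl, Nat.lcm_self, div_pow]
      field_simp
    · rw [if_neg hmm, if_neg hmm, mul_zero]
  rw [hmain] at hup
  linarith

/-- Second moment: expand the square, `box_sum` with `B = Q^4`, `lcm ≤ Q²`, at most `Q²` pairs. -/
theorem second {d n Q H : ℕ} (hd : 2 ≤ d) (hn : 1 ≤ n) (hQ : Q ^ 8 ≤ 2 * H + 1) (α : ℤ) :
    ∑ c ∈ box (d + 1) H, (∑ m ∈ sf Q, OM d n α m c) ^ 2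
      ≤ (2 * H + 1 : ℝ) ^ (d + 1) * ∑ m ∈ sf Q, HM d n α m
        + (Q : ℝ) ^ 8 * ((d + 1) * 2 ^ d * (2 * H + 1) ^ d) := by
  have hexp : ∑ c ∈ box (d + 1) H, (∑ m ∈ sf Q, OM d n α m c) ^ 2
      = ∑ m ∈ sf Q, ∑ m' ∈ sf Q, ∑ c ∈ box (d + 1) H, OM d n α m c * OM d n α m' c := by
    have h1 : ∀ c ∈ box (d + 1) H, (∑ m ∈ sf Q, OM d n α m c) ^ 2
        = ∑ m ∈ sf Q, ∑ m' ∈ sf Q, OM d n α m c * OM d n α m' c := by
      intro c _
      rw [sq, Finset.sum_mul_sum]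
    rw [Finset.sum_congr rfl h1, Finset.sum_comm]
    refine Finset.sum_congr rfl fun m _ => ?_
    rw [Finset.sum_comm]
  have hcard : ((sf Q).card : ℝ) ≤ Q := by
    have h1 : (sf Q).card ≤ Q := by
      calc (sf Q).card ≤ (Icc 1 Q).card := Finset.card_filter_le _ _
        _ = Q := by rw [Nat.card_Icc]; omega
    exact_mod_cast h1
  have hE0 : (0 : ℝ) ≤ (Q : ℝ) ^ 6 * ((d + 1) * 2 ^ d * (2 * H + 1) ^ d) := by positivity
  calc ∑ c ∈ box (d + 1) H, (∑ m ∈ sf Q, OM d n α m c) ^ 2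
      = ∑ m ∈ sf Q, ∑ m' ∈ sf Q, ∑ c ∈ box (d + 1) H, OM d n α m c * OM d n α m' c := hexp
    _ ≤ ∑ m ∈ sf Q, ∑ m' ∈ sf Q,
          ((if m = m' then (2 * H + 1 : ℝ) ^ (d + 1) * HM d n α m else 0)
            + (Q : ℝ) ^ 6 * ((d + 1) * 2 ^ d * (2 * H + 1) ^ d)) :=
        Finset.sum_le_sum fun m hm => Finset.sum_le_sum fun m' hm' =>
          second_pair hd hn hQ α hm hm'
    _ = ∑ m ∈ sf Q, ((2 * H + 1 : ℝ) ^ (d + 1) * HM d n α m
          + (sf Q).card * ((Q : ℝ) ^ 6 * ((d + 1) * 2 ^ d * (2 * H + 1) ^ d))) := by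
        refine Finset.sum_congr rfl fun m hm => ?_
        rw [Finset.sum_add_distrib, Finset.sum_const, nsmul_eq_mul, Finset.sum_ite_eq, if_pos hm]
    _ = (2 * H + 1 : ℝ) ^ (d + 1) * ∑ m ∈ sf Q, HM d n α m
          + ((sf Q).card * (sf Q).card) * ((Q : ℝ) ^ 6 * ((d + 1) * 2 ^ d * (2 * H + 1) ^ d)) := by
        rw [Finset.sum_add_distrib, Finset.sum_const, nsmul_eq_mul, ← Finset.mul_sum]
        ring
    _ ≤ (2 * H + 1 : ℝ) ^ (d + 1) * ∑ m ∈ sf Q, HM d n α m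
          + ((Q : ℝ) * Q) * ((Q : ℝ) ^ 6 * ((d + 1) * 2 ^ d * (2 * H + 1) ^ d)) := by
        have h2 : ((sf Q).card : ℝ) * (sf Q).card ≤ (Q : ℝ) * Q :=
          mul_le_mul hcard hcard (Nat.cast_nonneg _) (Nat.cast_nonneg _)
        have h3 := mul_le_mul_of_nonneg_right h2 hE0
        linarith
    _ = (2 * H + 1 : ℝ) ^ (d + 1) * ∑ m ∈ sf Q, HM d n α m
          + (Q : ℝ) ^ 8 * ((d + 1) * 2 ^ d * (2 * H + 1) ^ d) := by ring
-- END second

-- BEGIN sieve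
open Classical in
/-- On the sifted set the inner sum is `∑ HM m =: S ≥ 1`, so `|A| S² ≤ (2H+1)^(d+1) (S + (d+1) 2^d)`. -/
theorem sieve {d n Q H : ℕ} (hd : 2 ≤ d) (hn : 1 ≤ n) (hQ1 : 1 ≤ Q) (hQ : Q ^ 8 ≤ 2 * H + 1) (α : ℤ) :
    (((box (d + 1) H).filter fun c => ∀ p : ℕ, p.Prime → p ≤ Q → ¬ (p : ℤ) ∣ it c α n).card : ℝ)
        * ∑ m ∈ sf Q, HM d n α m
      ≤ (1 + (d + 1) * 2 ^ d) * (2 * H + 1 : ℝ) ^ (d + 1) := by
  set A := (box (d + 1) H).filter fun c => ∀ p : ℕ, p.Prime → p ≤ Q → ¬ (p : ℤ) ∣ it c α n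
    with hA
  set S : ℝ := ∑ m ∈ sf Q, HM d n α m with hS
  -- each HM is nonnegative
  have hHM : ∀ m ∈ sf Q, 0 ≤ HM d n α m := by
    intro m _
    refine Finset.prod_nonneg fun p hp => ?_
    have hpp : p.Prime := Nat.prime_of_mem_primeFactors hp
    have h1 := (hp_bd hd hn hpp α).1
    have h2 : (0 : ℝ) ≤ 1 / (3 * (p : ℝ)) := by positivity
    linarith
  have h1mem : 1 ∈ sf Q := by
    simp [sf, hQ1]
  have hS1 : 1 ≤ S := by
    have h := Finset.single_le_sum hHM h1mem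
    have h1 : HM d n α 1 = 1 := by simp [HM]
    rw [h1] at h
    exact h
  -- on the sifted set the inner sum is S
  have hin : ∀ c ∈ A, ∑ m ∈ sf Q, OM d n α m c = S := by
    intro c hc
    rw [hA, Finset.mem_filter] at hc
    refine Finset.sum_congr rfl fun m hm => ?_
    refine Finset.prod_congr rfl fun p hp => ?_
    have hpp : p.Prime := Nat.prime_of_mem_primeFactors hp
    have hmI : m ∈ Icc 1 Q := (Finset.mem_filter.1 hm).1
    have hmQ : m ≤ Q := (Finset.mem_Icc.1 hmI).2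
    have hple : p ≤ Q := le_trans (Nat.le_of_mem_primeFactors hp) hmQ
    have := hc.2 p hpp hple
    simp [om, this]
  have hsub : A ⊆ box (d + 1) H := Finset.filter_subset _ _
  have hlow : (A.card : ℝ) * S ^ 2 ≤ ∑ c ∈ box (d + 1) H, (∑ m ∈ sf Q, OM d n α m c) ^ 2 := by
    calc (A.card : ℝ) * S ^ 2 = ∑ c ∈ A, (∑ m ∈ sf Q, OM d n α m c) ^ 2 := by
          rw [Finset.sum_congr rfl (fun c hc => by rw [hin c hc]), Finset.sum_const, nsmul_eq_mul]
      _ ≤ _ := Finset.sum_le_sum_of_subset_of_nonneg hsub fun c _ _ => sq_nonneg _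
  have hsec := second (d := d) (n := n) (Q := Q) (H := H) hd hn hQ α
  rw [← hS] at hsec
  have hQR : (Q : ℝ) ^ 8 ≤ 2 * H + 1 := by exact_mod_cast hQ
  have hX : (0 : ℝ) ≤ 2 * H + 1 := by positivity
  have hD : (0 : ℝ) ≤ (d + 1) * 2 ^ d := by positivity
  have hup : (A.card : ℝ) * S ^ 2
      ≤ (2 * H + 1 : ℝ) ^ (d + 1) * S + (2 * H + 1 : ℝ) ^ (d + 1) * ((d + 1) * 2 ^ d) := by
    have h3 : (Q : ℝ) ^ 8 * ((d + 1) * 2 ^ d * (2 * H + 1) ^ d)
        ≤ (2 * H + 1 : ℝ) ^ (d + 1) * ((d + 1) * 2 ^ d) := by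
      calc (Q : ℝ) ^ 8 * ((d + 1) * 2 ^ d * (2 * H + 1) ^ d)
          ≤ (2 * H + 1) * ((d + 1) * 2 ^ d * (2 * H + 1) ^ d) :=
            mul_le_mul_of_nonneg_right hQR (by positivity)
        _ = (2 * H + 1 : ℝ) ^ (d + 1) * ((d + 1) * 2 ^ d) := by ring
    linarith
  have hY : (0 : ℝ) ≤ (2 * H + 1 : ℝ) ^ (d + 1) := by positivity
  have h4 : (2 * H + 1 : ℝ) ^ (d + 1) * ((d + 1) * 2 ^ d)
      ≤ (2 * H + 1 : ℝ) ^ (d + 1) * ((d + 1) * 2 ^ d) * S :=
    le_mul_of_one_le_right (mul_nonneg hY hD) hS1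
  have hSpos : 0 < S := by linarith
  have h5 : ((A.card : ℝ) * S) * S ≤ ((1 + (d + 1) * 2 ^ d) * (2 * H + 1 : ℝ) ^ (d + 1)) * S := by
    nlinarith [hup, h4]
  exact le_of_mul_le_mul_right h5 hSpos
-- END sieve

-- BEGIN S_low
/-- `S³ ≥ (1/16) log (2H+1)`: `HM m ≥ ∏ 1/(3p)`, `cube`, `harm`, `2H+1 < (Q+1)^8`. -/
theorem S_low {d n Q H : ℕ} (hd : 2 ≤ d) (hn : 1 ≤ n) (hQ : 2 * H + 1 < (Q + 1) ^ 8) (α : ℤ) :
    Real.log (2 * H + 1) ≤ 16 * (∑ m ∈ sf Q, HM d n α m) ^ 3 := by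
  have h1 : Real.log (2 * H + 1) ≤ 8 * Real.log (Q + 1) := by
    have h2 : (2 * (H : ℝ) + 1) ≤ ((Q : ℝ) + 1) ^ 8 := by
      exact_mod_cast hQ.le
    have h3 : Real.log (2 * (H : ℝ) + 1) ≤ Real.log (((Q : ℝ) + 1) ^ 8) :=
      Real.log_le_log (by positivity) h2
    rw [Real.log_pow] at h3
    exact_mod_cast h3
  have h4 := harm Q
  have h5 := cube Q
  have h6 : (∑ m ∈ sf Q, ∏ p ∈ m.primeFactors, 1 / (3 * (p : ℝ))) ≤ ∑ m ∈ sf Q, HM d n α m := by
    refine Finset.sum_le_sum fun m _ => ?_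
    unfold HM
    refine Finset.prod_le_prod (fun p _ => by positivity) fun p hp => ?_
    exact (hp_bd hd hn (Nat.prime_of_mem_primeFactors hp) α).1
  have h7 : 0 ≤ ∑ m ∈ sf Q, ∏ p ∈ m.primeFactors, 1 / (3 * (p : ℝ)) :=
    Finset.sum_nonneg fun m _ => Finset.prod_nonneg fun p _ => by positivity
  have h8 := pow_le_pow_left₀ h7 h6 3
  linarith
-- END S_low

-- BEGIN part_a
open Classical in
/-- Take `Q` maximal with `Q^8 ≤ 2H+1`; `sieve`, `S_low`; `(1 + (d+1) 2^d) 16^(1/3) ≤ 3 (d+2) 2^d`. -/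
theorem part_a {d n H : ℕ} (hd : 2 ≤ d) (hn : 1 ≤ n) (hH : 2 ≤ H) (α : ℤ) :
    (((box (d + 1) H).filter fun c => ∀ p : ℕ, p.Prime → p ^ 8 ≤ 2 * H + 1 →
        ¬ (p : ℤ) ∣ it c α n).card : ℝ)
      ≤ 3 * (d + 2) * 2 ^ d * (Real.log H) ^ (-(1 / 3) : ℝ) * (2 * H + 1) ^ (d + 1) := by
  obtain ⟨Q, hQ1, hQ, hQ2⟩ : ∃ Q : ℕ, 1 ≤ Q ∧ Q ^ 8 ≤ 2 * H + 1 ∧ 2 * H + 1 < (Q + 1) ^ 8 := by
    have hex : ∃ k : ℕ, 2 * H + 1 < k ^ 8 :=
      ⟨2 * H + 2, lt_of_lt_of_le (by omega) (Nat.le_self_pow (by norm_num) _)⟩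
    have hk := Nat.find_spec hex
    have hk0 : Nat.find hex ≠ 0 := fun h => by rw [h] at hk; simp at hk
    have hk1 : Nat.find hex ≠ 1 := fun h => by rw [h] at hk; simp at hk
    refine ⟨Nat.find hex - 1, by omega, ?_, ?_⟩
    · exact not_lt.1 (Nat.find_min hex (m := Nat.find hex - 1) (by omega))
    · rw [show Nat.find hex - 1 + 1 = Nat.find hex by omega]; exact hk
  set S : ℝ := ∑ m ∈ sf Q, HM d n α m with hS
  have hS0 : 0 ≤ S := Finset.sum_nonneg fun m _ => Finset.prod_nonneg fun p hp =>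
    le_trans (by positivity) (hp_bd hd hn (Nat.prime_of_mem_primeFactors hp) α).1
  have hlow := S_low hd hn hQ2 α
  rw [← hS] at hlow
  have hsv := sieve hd hn hQ1 hQ α
  rw [← hS] at hsv
  have hsub : ((box (d + 1) H).filter fun c => ∀ p : ℕ, p.Prime → p ^ 8 ≤ 2 * H + 1 →
        ¬ (p : ℤ) ∣ it c α n).card ≤
      ((box (d + 1) H).filter fun c => ∀ p : ℕ, p.Prime → p ≤ Q → ¬ (p : ℤ) ∣ it c α n).card := by
    refine Finset.card_le_card fun c hc => ?_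
    rw [Finset.mem_filter] at hc ⊢
    exact ⟨hc.1, fun p hp hpQ => hc.2 p hp (le_trans (Nat.pow_le_pow_left hpQ 8) hQ)⟩
  have hsub' : (((box (d + 1) H).filter fun c => ∀ p : ℕ, p.Prime → p ^ 8 ≤ 2 * H + 1 →
        ¬ (p : ℤ) ∣ it c α n).card : ℝ) ≤
      (((box (d + 1) H).filter fun c => ∀ p : ℕ, p.Prime → p ≤ Q →
        ¬ (p : ℤ) ∣ it c α n).card : ℝ) := by exact_mod_cast hsub
  refine le_trans hsub' ?_
  set A : ℝ := (((box (d + 1) H).filter fun c => ∀ p : ℕ, p.Prime → p ≤ Q →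
        ¬ (p : ℤ) ∣ it c α n).card : ℝ) with hA
  have hA0 : 0 ≤ A := Nat.cast_nonneg _
  have hH' : (2 : ℝ) ≤ H := by exact_mod_cast hH
  have hL : 0 < Real.log H := Real.log_pos (by linarith)
  have hLL : Real.log H ≤ Real.log (2 * H + 1) := Real.log_le_log (by linarith) (by linarith)
  set t : ℝ := (Real.log H) ^ (-(1 / 3) : ℝ) with ht
  have ht0 : 0 < t := Real.rpow_pos_of_pos hL _
  have ht3 : t ^ 3 * Real.log H = 1 := by
    rw [ht, ← Real.rpow_natCast, ← Real.rpow_mul hL.le]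
    norm_num
    rw [Real.rpow_neg_one]
    exact inv_mul_cancel₀ hL.ne'
  have h3 : 1 ≤ 3 * (S * t) := by
    by_contra hcon'
    have hcon := not_le.1 hcon'
    have hst : 0 ≤ 3 * (S * t) := by positivity
    have h4 : (3 * (S * t)) ^ 3 < 1 := pow_lt_one₀ hst hcon (by norm_num)
    have h5 : Real.log H ≤ 16 * S ^ 3 := le_trans hLL hlow
    have h6 : t ^ 3 * Real.log H ≤ t ^ 3 * (16 * S ^ 3) :=
      mul_le_mul_of_nonneg_left h5 (by positivity)
    rw [ht3] at h6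
    nlinarith [h4, h6]
  have h7 : A ≤ 3 * t * (A * S) := by
    have := mul_le_mul_of_nonneg_left h3 hA0
    nlinarith [this]
  have h8 : 3 * t * (A * S) ≤ 3 * t * ((1 + (d + 1) * 2 ^ d) * (2 * H + 1 : ℝ) ^ (d + 1)) :=
    mul_le_mul_of_nonneg_left hsv (by positivity)
  have h9 : (1 + (d + 1) * 2 ^ d : ℝ) ≤ (d + 2) * 2 ^ d := by
    have : (1 : ℝ) ≤ 2 ^ d := one_le_pow₀ (by norm_num)
    nlinarith [this]
  have h10 : 3 * t * ((1 + (d + 1) * 2 ^ d) * (2 * H + 1 : ℝ) ^ (d + 1)) ≤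
      3 * t * (((d + 2) * 2 ^ d) * (2 * H + 1 : ℝ) ^ (d + 1)) :=
    mul_le_mul_of_nonneg_left (mul_le_mul_of_nonneg_right h9 (by positivity)) (by positivity)
  calc A ≤ 3 * t * (A * S) := h7
    _ ≤ 3 * t * ((1 + (d + 1) * 2 ^ d) * (2 * H + 1 : ℝ) ^ (d + 1)) := h8
    _ ≤ 3 * t * (((d + 2) * 2 ^ d) * (2 * H + 1 : ℝ) ^ (d + 1)) := h10
    _ = 3 * (d + 2) * 2 ^ d * t * (2 * H + 1) ^ (d + 1) := by ring
-- END part_a

end Pool.Agent.ODn
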